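import Pool.Agent.R672.RFV.Grp2
import Pool.Agent.Y968.SV.Basic

/-!
# Residual finiteness of the finitely generated groups of a soluble variety: auxiliary facts
-/

set_option autoImplicit false

namespace Pool.Agent.R672.RFV

open Pool.Agent.H53R2 Pool.Agent.Y968.SV
open scoped commutatorElement

/-- Malcev: finitely generated residually finite groups are Hopfian -/
theorem hopf_of_rfin {G : Type} [Group G] [hfg : Group.FG G] (h : RFin G) : Hopf G := by
  intro f hf
  rw [injective_iff_map_eq_one]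
  intro g hg
  by_contra hne
  obtain ⟨N, hN1, hN2, hgN⟩ := h g hne
  have hFfin : Finite (G ⧸ N) := inferInstance
  let ψ : G →* G ⧸ N := QuotientGroup.mk' N
  have hψ : ψ g ≠ 1 := fun h => hgN ((QuotientGroup.eq_one_iff g).1 h)
  obtain ⟨T, hgen⟩ := hfg.out
  have hfin : Finite (G →* G ⧸ N) := by
    apply Finite.of_injective (fun (χ : G →* G ⧸ N) (i : ↥T) => χ i)
    intro χ χ' he
    refine MonoidHom.eq_of_eqOn_dense hgen ?_
    intro x hx
    exact congrFun he ⟨x, hx⟩
  have hinj : Function.Injective (fun χ : G →* G ⧸ N => χ.comp f) := by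
    intro χ χ' h
    ext x
    obtain ⟨y, rfl⟩ := hf x
    exact DFunLike.congr_fun h y
  obtain ⟨χ, hχ⟩ := (Finite.injective_iff_surjective.1 hinj) ψ
  have h2 : ψ g = χ (f g) := by rw [← hχ]; rfl
  rw [hg, map_one] at h2
  exact hψ h2

/-- in a residually finite group, an element which commutes with `t^i m t^(-i)` for all `i ≠ 0`
commutes with `m` -/
theorem comm_of_rfin {G : Type} [Group G] (h : RFin G) (b m t : G)
    (hc : ∀ i : ℤ, i ≠ 0 → b * (t ^ i * m * t ^ (-i)) = t ^ i * m * t ^ (-i) * b) :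
    b * m = m * b := by
  rw [← commutatorElement_eq_one_iff_mul_comm]
  by_contra hne
  obtain ⟨N, hN1, hN2, hN3⟩ := h _ hne
  apply hN3
  have hfin : Finite (G ⧸ N) := inferInstance
  let q : G →* G ⧸ N := QuotientGroup.mk' N
  have hn : 0 < Nat.card (G ⧸ N) := Nat.card_pos
  have ht : q t ^ (Nat.card (G ⧸ N) : ℤ) = 1 := by
    rw [zpow_natCast]; exact pow_card_eq_one'
  have h1 := hc (Nat.card (G ⧸ N) : ℤ) (by exact_mod_cast hn.ne')
  have h2 := congrArg q h1
  simp only [map_mul, map_zpow, zpow_neg, ht, map_inv, inv_one, one_mul, mul_one] at h2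
  have h3 : q ⁅b, m⁆ = 1 := by
    rw [map_commutatorElement, commutatorElement_eq_one_iff_mul_comm]
    exact h2
  exact (QuotientGroup.eq_one_iff _).1 h3

/-- the universal identity from the commutation rule in one quotient -/
theorem ui_of_rule (W : Set (FreeGroup ℕ))
    (h : ∀ (G : Type) [Group G], InVar W G → ∀ b m t : G,
      (∀ i : ℤ, i ≠ 0 → b * (t ^ i * m * t ^ (-i)) = t ^ i * m * t ^ (-i) * b) → b * m = m * b) :
    ∃ u : UI, ∀ (G : Type) [Group G], InVar W G → u.Grp G := by
  apply M_extract W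
  set D := Subgroup.normalClosure {x : RF W 3 | ∃ j : ℤ, j ≠ 0 ∧
        x = ⁅(RF.gen W 0 : RF W 3), RF.gen W 2 ^ j * RF.gen W 1 * RF.gen W 2 ^ (-j)⁆} with hD
  let q : RF W 3 →* RF W 3 ⧸ D := QuotientGroup.mk' D
  have h1 := h (RF W 3 ⧸ D) ((RF_inVar W 3).quot _) (q (RF.gen W 0)) (q (RF.gen W 1))
    (q (RF.gen W 2)) (by
      intro i hi
      have h2 : q ⁅(RF.gen W 0 : RF W 3), RF.gen W 2 ^ i * RF.gen W 1 * RF.gen W 2 ^ (-i)⁆ = 1 :=
        (QuotientGroup.eq_one_iff _).2 (Subgroup.subset_normalClosure ⟨i, hi, rfl⟩)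
      rw [map_commutatorElement, commutatorElement_eq_one_iff_mul_comm, map_mul, map_mul,
        map_zpow, map_zpow] at h2
      exact h2)
  have h3 : q ⁅(RF.gen W 0 : RF W 3), RF.gen W 1⁆ = 1 := by
    rw [map_commutatorElement, commutatorElement_eq_one_iff_mul_comm]
    exact h1
  exact (QuotientGroup.eq_one_iff _).1 h3

end Pool.Agent.R672.RFV
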