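import Pool.Agent.Helper294.HallC.NoeOfFg

/-!
# Almost all primes are good for finitely generated modules over polycyclic groups
-/

set_option autoImplicit false

namespace Pool.Agent.R672.RFV

open Pool.Agent.Helper294.HallC

section gd

variable {B A : Type} [CommRing B] [IsDomain B] [AddCommGroup A] [Module B A]

/-- the section `Y/X` has no `π`-torsion, and its infinitely `π`-divisible elements are torsion. -/
def Gd (π : B) (X Y : AddSubgroup A) : Prop :=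
  (∀ y ∈ Y, π • y ∈ X → y ∈ X) ∧
    (∀ y ∈ Y, (∀ n : ℕ, ∃ y' ∈ Y, y - π ^ n • y' ∈ X) → ∃ c : B, c ≠ 0 ∧ c • y ∈ X)

theorem Gd.refl (π : B) (X : AddSubgroup A) : Gd π X X :=
  ⟨fun _ h _ => h, fun y h _ => ⟨1, one_ne_zero, by rwa [one_smul]⟩⟩

theorem Gd.pow {π : B} {X Y : AddSubgroup A} (h : Gd π X Y) (hY : ∀ b : B, ∀ y ∈ Y, b • y ∈ Y)
    (n : ℕ) : ∀ y ∈ Y, π ^ n • y ∈ X → y ∈ X := by
  induction n with
  | zero => intro y _ h; rwa [pow_zero, one_smul] at h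
  | succ n ih =>
    intro y hy h1
    apply ih y hy
    apply h.1 _ (hY _ _ hy)
    rwa [← mul_smul, ← pow_succ']

theorem Gd.trans {π : B} {X Y Z : AddSubgroup A} (hXY : X ≤ Y) (hYZ : Y ≤ Z)
    (hX : ∀ b : B, ∀ y ∈ X, b • y ∈ X) (hZ : ∀ b : B, ∀ y ∈ Z, b • y ∈ Z)
    (h1 : Gd π X Y) (h2 : Gd π Y Z) : Gd π X Z := by
  refine ⟨fun z hz hπ => h1.1 z (h2.1 z hz (hXY hπ)) hπ, fun z hz hn => ?_⟩
  obtain ⟨c, hc, hcz⟩ := h2.2 z hz (fun n => by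
    obtain ⟨y', hy', h⟩ := hn n
    exact ⟨y', hy', hXY h⟩)
  obtain ⟨c', hc', h3⟩ := h1.2 (c • z) hcz (fun n => by
    obtain ⟨y', hy', h⟩ := hn n
    have h4 : c • z - π ^ n • (c • y') ∈ X := by
      have := hX c _ h
      rwa [smul_sub, smul_comm c] at this
    refine ⟨c • y', ?_, h4⟩
    apply h2.pow hZ n _ (hZ _ _ hy')
    have h5 := Y.sub_mem hcz (hXY h4)
    rwa [sub_sub_cancel] at h5)
  exact ⟨c' * c, mul_ne_zero hc' hc, by rwa [mul_smul]⟩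

theorem Gd.chain {π : B} (Y : ℕ → AddSubgroup A) (hm : Monotone Y)
    (hB : ∀ i, ∀ b : B, ∀ y ∈ Y i, b • y ∈ Y i) (h : ∀ i, Gd π (Y i) (Y (i + 1))) (i j : ℕ)
    (hij : i ≤ j) : Gd π (Y i) (Y j) := by
  induction j, hij using Nat.le_induction with
  | base => exact Gd.refl _ _
  | succ j hij ih => exact Gd.trans (hm hij) (hm (Nat.le_succ j)) (hB i) (hB _) ih (h j)

theorem Gd.union {π : B} (Y : ℕ → AddSubgroup A) (hm : Monotone Y)
    (hB : ∀ i, ∀ b : B, ∀ y ∈ Y i, b • y ∈ Y i) (h : ∀ i, Gd π (Y i) (Y (i + 1)))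
    (U : AddSubgroup A) (hU : ∀ u ∈ U, ∃ n, u ∈ Y n) : Gd π (Y 0) U := by
  have hc := Gd.chain Y hm hB h
  refine ⟨fun u hu hπ => ?_, fun u hu hn => ?_⟩
  · obtain ⟨n, hn⟩ := hU u hu
    exact (hc 0 n (Nat.zero_le _)).1 u hn hπ
  · obtain ⟨i, hi⟩ := hU u hu
    apply (hc 0 i (Nat.zero_le _)).2 u hi
    intro n
    obtain ⟨y', hy', h1⟩ := hn n
    obtain ⟨j, hj⟩ := hU y' hy'
    refine ⟨y', ?_, h1⟩
    rcases le_total j i with hji | hij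
    · exact hm hji hj
    · apply (hc i j hij).pow (hB j) n y' hj
      have h2 := (Y i).sub_mem hi (hm (Nat.zero_le i) h1)
      rwa [sub_sub_cancel] at h2

/-- transport along a map `θ` with `Y₁ = Y₀ + θ M₀`. -/
theorem Gd.transport {π : B} {K M₀ Y₀ Y₁ : AddSubgroup A} (θ : A →+ A)
    (hθ : ∀ b : B, ∀ x, θ (b • x) = b • θ x) (hY₀ : ∀ b : B, ∀ y ∈ Y₀, b • y ∈ Y₀)
    (hM₀ : ∀ b : B, ∀ y ∈ M₀, b • y ∈ M₀)
    (hK : ∀ m ∈ M₀, m ∈ K ↔ θ m ∈ Y₀) (h01 : Y₀ ≤ Y₁)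
    (hY₁ : ∀ y ∈ Y₁, ∃ m ∈ M₀, y - θ m ∈ Y₀) (h : Gd π K M₀) : Gd π Y₀ Y₁ := by
  have key : ∀ (b : B) (y m : A), y - θ m ∈ Y₀ → m ∈ M₀ → (b • y ∈ Y₀ ↔ b • m ∈ K) := by
    intro b y m hym hm
    rw [hK _ (hM₀ b m hm), hθ]
    have h1 := hY₀ b _ hym
    rw [smul_sub] at h1
    constructor
    · intro h2
      have := Y₀.sub_mem h2 h1
      rwa [sub_sub_cancel] at this
    · intro h2
      have := Y₀.add_mem h1 h2
      rwa [sub_add_cancel] at this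
  refine ⟨fun y hy hπ => ?_, fun y hy hn => ?_⟩
  · obtain ⟨m, hm, hym⟩ := hY₁ y hy
    have h1 := h.1 m hm ((key π y m hym hm).1 hπ)
    have h2 := (key 1 y m hym hm).2 (by rwa [one_smul])
    rwa [one_smul] at h2
  · obtain ⟨m, hm, hym⟩ := hY₁ y hy
    obtain ⟨c, hc, h1⟩ := h.2 m hm (fun n => by
      obtain ⟨y', hy', h2⟩ := hn n
      obtain ⟨m', hm', hym'⟩ := hY₁ y' hy'
      refine ⟨m', hm', ?_⟩
      have h3 : y - π ^ n • y' - θ (m - π ^ n • m') ∈ Y₀ := by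
        have : y - π ^ n • y' - θ (m - π ^ n • m') =
            (y - θ m) - π ^ n • (y' - θ m') := by
          rw [map_sub, hθ, smul_sub]; abel
        rw [this]
        exact Y₀.sub_mem hym (hY₀ _ _ hym')
      have h4 := (key 1 _ _ h3 (M₀.sub_mem hm (hM₀ _ _ hm'))).1 (by rwa [one_smul])
      rwa [one_smul] at h4)
    exact ⟨c, hc, (key c y m hym hm).2 h1⟩

end gd

end Pool.Agent.R672.RFV
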