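import Pool.Agent.R672.RFV.GdStep

set_option autoImplicit false

namespace Pool.Agent.R672.RFV

open Pool.Agent.Helper294.HallC

section base

variable {B A : Type} [CommRing B] [IsDomain B] [IsPrincipalIdealRing B] [AddCommGroup A]
  [Module B A]

theorem gd_fin (N X : Submodule B A) (hN : N.FG) :
    ∃ f : B, f ≠ 0 ∧ ∀ π : B, Prime π → ¬ π ∣ f → Gd π X.toAddSubgroup N.toAddSubgroup := by
  let X' : Submodule B ↥N := X.comap N.subtype
  have hfin : Module.Finite B ↥N := Module.Finite.iff_fg.2 hN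
  have hfQ : Module.Finite B (↥N ⧸ X') := inferInstance
  let T : Submodule B (↥N ⧸ X') := Submodule.torsion B (↥N ⧸ X')
  have hTfin : Module.Finite B ↥T := inferInstance
  have hT : Module.IsTorsion B ↥T := Submodule.torsion_isTorsion
  have hTA := Submodule.annihilator_top_inter_nonZeroDivisors hT
  obtain ⟨f, hf1, hf2⟩ := hTA
  have hf0 : f ≠ 0 := nonZeroDivisors.ne_zero hf2
  refine ⟨f, hf0, fun π hπ hπf => ⟨fun y hy h => ?_, fun y hy h => ?_⟩⟩
  · have h1 : π • (Submodule.Quotient.mk (⟨y, hy⟩ : ↥N) : ↥N ⧸ X') = 0 := by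
      rw [← Submodule.Quotient.mk_smul, Submodule.Quotient.mk_eq_zero]
      exact h
    have h2 : (Submodule.Quotient.mk (⟨y, hy⟩ : ↥N) : ↥N ⧸ X') ∈ T := by
      rw [Submodule.mem_torsion_iff]
      exact ⟨⟨π, mem_nonZeroDivisors_of_ne_zero hπ.ne_zero⟩, h1⟩
    have h3 : f • (Submodule.Quotient.mk (⟨y, hy⟩ : ↥N) : ↥N ⧸ X') = 0 := by
      have := Submodule.mem_annihilator.1 hf1 ⟨_, h2⟩ trivial
      exact congrArg Subtype.val this
    obtain ⟨a, b, hab⟩ := hπ.coprime_iff_not_dvd.2 hπf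
    have h4 : (Submodule.Quotient.mk (⟨y, hy⟩ : ↥N) : ↥N ⧸ X') = 0 := by
      rw [← one_smul B (Submodule.Quotient.mk (⟨y, hy⟩ : ↥N) : ↥N ⧸ X'), ← hab, add_smul,
        mul_smul, mul_smul, h1, h3, smul_zero, smul_zero, add_zero]
    exact (Submodule.Quotient.mk_eq_zero X').1 h4
  · have hmem : (Submodule.Quotient.mk (⟨y, hy⟩ : ↥N) : ↥N ⧸ X') ∈
        (⨅ i : ℕ, (Ideal.span {π}) ^ i • (⊤ : Submodule B (↥N ⧸ X'))) := by
      rw [Submodule.mem_iInf]
      intro k
      obtain ⟨y', hy', h1⟩ := h k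
      have h2 : (Submodule.Quotient.mk (⟨y, hy⟩ : ↥N) : ↥N ⧸ X') =
          (π ^ k) • (Submodule.Quotient.mk (⟨y', hy'⟩ : ↥N) : ↥N ⧸ X') := by
        rw [← Submodule.Quotient.mk_smul, Submodule.Quotient.eq]
        exact h1
      rw [h2, Ideal.span_singleton_pow]
      exact Submodule.smul_mem_smul (Ideal.mem_span_singleton_self _) Submodule.mem_top
    rw [Ideal.mem_iInf_smul_pow_eq_bot_iff] at hmem
    obtain ⟨⟨a, ha⟩, hz⟩ := hmem
    rw [Ideal.mem_span_singleton] at ha
    have hz' : a • (Submodule.Quotient.mk (⟨y, hy⟩ : ↥N) : ↥N ⧸ X') =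
      Submodule.Quotient.mk (⟨y, hy⟩ : ↥N) := hz
    refine ⟨1 - a, ?_, ?_⟩
    · intro h0
      have : a = 1 := (sub_eq_zero.1 h0).symm
      rw [this] at ha
      exact hπ.not_unit (isUnit_of_dvd_one ha)
    · have h5 : (1 - a) • (Submodule.Quotient.mk (⟨y, hy⟩ : ↥N) : ↥N ⧸ X') = 0 := by
        rw [sub_smul, one_smul, hz', sub_self]
      rw [← Submodule.Quotient.mk_smul, Submodule.Quotient.mk_eq_zero] at h5
      exact h5

theorem noe_fin (N : Submodule B A) (hN : N.FG) (f : ℕ → AddSubgroup A) (hf : Monotone f)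
    (hfN : ∀ n, ∀ x ∈ f n, x ∈ N) (hfB : ∀ n, ∀ b : B, ∀ x ∈ f n, b • x ∈ f n) :
    ∃ n, ∀ m, n ≤ m → f m = f n := by
  have hfin : Module.Finite B ↥N := Module.Finite.iff_fg.2 hN
  have hnoe : IsNoetherian B ↥N := inferInstance
  let g : ℕ → Submodule B A := fun n =>
    { carrier := f n
      zero_mem' := zero_mem _
      add_mem' := fun ha hb => add_mem ha hb
      smul_mem' := fun b x hx => hfB n b x hx }
  obtain ⟨n, hn⟩ := monotone_stabilizes_iff_noetherian.2 hnoe
    ⟨fun n => (g n).comap N.subtype, fun a b hab x hx => hf hab hx⟩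
  refine ⟨n, fun m hm => ?_⟩
  have h1 := hn m hm
  ext x
  constructor
  · intro hx
    have h2 : (⟨x, hfN m x hx⟩ : ↥N) ∈ (g m).comap N.subtype := hx
    have h3 : (⟨x, hfN m x hx⟩ : ↥N) ∈ (g n).comap N.subtype := by
      have h4 : (g n).comap N.subtype = (g m).comap N.subtype := h1
      rw [h4]; exact h2
    exact h3
  · intro hx
    exact hf hm hx

end base

/-- **almost all primes are good.** -/
theorem gd_main {B Γ A : Type} [CommRing B] [IsDomain B] [IsPrincipalIdealRing B] [Group Γ]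
    [AddCommGroup A] [Module B A] [DistribMulAction Γ A] (C : Subgroup Γ) [C.Normal]
    (hpc : PC (Γ ⧸ C))
    (hcomm : ∀ (g : Γ) (b : B) (a : A), g • b • a = b • g • a)
    (hCB : ∀ X : AddSubgroup A, (∀ c ∈ C, ∀ x ∈ X, c • x ∈ X) → ∀ b : B, ∀ x ∈ X, b • x ∈ X)
    (hBC : ∀ c ∈ C, ∀ a : A, ∃ b : B, c • a = b • a) (hA : FGM Γ A) :
    ∃ f : B, f ≠ 0 ∧ ∀ π : B, Prime π → ¬ π ∣ f → Gd π (⊥ : AddSubgroup A) ⊤ := by
  classical
  obtain ⟨S, hS⟩ := hA
  let M : Subgroup Γ → AddSubgroup A := fun R =>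
    AddSubgroup.closure {a : A | ∃ g ∈ R, ∃ s ∈ (S : Set A), a = g • s}
  have hMstab : ∀ R : Subgroup Γ, ∀ g ∈ R, ∀ x ∈ M R, g • x ∈ M R := fun R =>
    noe_of_fg_stable R R le_rfl (S : Set A) _ (fun g hg s hs =>
        AddSubgroup.subset_closure ⟨g, hg, s, hs, rfl⟩)
  have hMC : (M C : AddSubgroup A) = (Submodule.span B (S : Set A)).toAddSubgroup := by
    apply le_antisymm
    · show AddSubgroup.closure _ ≤ _
      rw [AddSubgroup.closure_le]
      rintro a ⟨c, hc, s, hs, rfl⟩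
      obtain ⟨b, hb⟩ := hBC c hc s
      rw [hb]
      exact Submodule.smul_mem _ b (Submodule.subset_span hs)
    · let N : Submodule B A :=
        { carrier := M C
          zero_mem' := zero_mem _
          add_mem' := fun ha hb => add_mem ha hb
          smul_mem' := fun b x hx => hCB (M C) (hMstab C) b x hx }
      have h1 : Submodule.span B (S : Set A) ≤ N := by
        rw [Submodule.span_le]
        intro s hs
        exact AddSubgroup.subset_closure ⟨1, C.one_mem, s, hs, (one_smul _ _).symm⟩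
      intro x hx
      exact h1 hx
  have hfg : (Submodule.span B (S : Set A)).FG := ⟨S, rfl⟩
  let P : Subgroup Γ → Prop := fun R => C ≤ R ∧ NoeOn R (M R) ∧
    ∀ X ≤ M R, (∀ g ∈ R, ∀ x ∈ X, g • x ∈ X) →
      ∃ f : B, f ≠ 0 ∧ ∀ π : B, Prime π → ¬ π ∣ f → Gd π X (M R)
  have hPC : P C := by
    refine ⟨le_rfl, ?_, ?_⟩
    · intro f hf hfs
      refine noe_fin _ hfg f hf (fun n x hx => ?_) (fun n => hCB (f n) (hfs n).2)
      have := (hfs n).1 hx
      rw [hMC] at this
      exact this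
    · intro X hX hXC
      obtain ⟨f, hf0, hf⟩ := gd_fin (Submodule.span B (S : Set A))
        { carrier := X
          zero_mem' := zero_mem _
          add_mem' := fun ha hb => add_mem ha hb
          smul_mem' := fun b x hx => hCB X hXC b x hx } hfg
      refine ⟨f, hf0, fun π h1 h2 => ?_⟩
      rw [hMC]
      exact hf π h1 h2
  have key : P (((⊤ : Subgroup (Γ ⧸ C))).comap (QuotientGroup.mk' C)) := by
    refine poly_ind hpc (fun R' => P (R'.comap (QuotientGroup.mk' C))) ?_ ?_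
    · have : (⊥ : Subgroup (Γ ⧸ C)).comap (QuotientGroup.mk' C) = C := QuotientGroup.ker_mk' C
      rw [this]
      exact hPC
    · intro R' P' t' hRP' ht' hn' hc' hR
      obtain ⟨t, rfl⟩ := QuotientGroup.mk'_surjective C t'
      obtain ⟨hCR, hR1, hR2⟩ := hR
      set R := R'.comap (QuotientGroup.mk' C) with hRdef
      set Q := P'.comap (QuotientGroup.mk' C) with hQdef
      have hRQ : R ≤ Q := Subgroup.comap_mono hRP'
      have ht : t ∈ Q := ht'
      have hn : ∀ x, x ∈ R ↔ t * x * t⁻¹ ∈ R := by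
        intro x
        have := hn' (QuotientGroup.mk' C x)
        rw [← map_inv, ← map_mul, ← map_mul] at this
        exact this
      have hc : ∀ x ∈ Q, ∃ k : ℤ, t ^ (-k) * x ∈ R := by
        intro x hx
        obtain ⟨k, hk⟩ := hc' (QuotientGroup.mk' C x) hx
        rw [← map_zpow, ← map_mul] at hk
        exact ⟨k, hk⟩
      have h2 : AddSubgroup.closure {a : A | ∃ g ∈ Q, ∃ x ∈ M R, a = g • x} = M Q := by
        apply le_antisymm
        · rw [AddSubgroup.closure_le]
          rintro a ⟨g, hg, x, hx, rfl⟩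
          exact noe_of_fg_stable Q R hRQ (S : Set A) (M Q) (fun g hg s hs =>
            AddSubgroup.subset_closure ⟨g, hg, s, hs, rfl⟩) g hg x hx
        · show AddSubgroup.closure _ ≤ _
          rw [AddSubgroup.closure_le]
          rintro a ⟨g, hg, s, hs, rfl⟩
          have hs1 : s ∈ M R :=
            AddSubgroup.subset_closure ⟨1, R.one_mem, s, hs, (one_smul _ _).symm⟩
          exact AddSubgroup.subset_closure ⟨g, hg, s, hs1, rfl⟩
      refine ⟨hCR.trans hRQ, ?_, ?_⟩
      · have h1 := noe_step R Q t hRQ ht hn hc _ (hMstab R) hR1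
        rwa [h2] at h1
      · intro X hX hXQ
        have h1 := gd_step C R Q t hCR hRQ ht hn hc (M R) (hMstab R) hR1 hcomm hCB hR2 X hXQ
        rwa [h2] at h1
  rw [Subgroup.comap_top] at key
  obtain ⟨f, hf0, hf⟩ := key.2.2 ⊥ bot_le (by
    intro g _ x hx
    rw [AddSubgroup.mem_bot] at hx ⊢
    rw [hx, smul_zero])
  have htop : M ⊤ = ⊤ := by
    rw [← hS]
    show AddSubgroup.closure _ = AddSubgroup.closure _
    congr 1
    ext a
    simp
  rw [htop] at hf
  exact ⟨f, hf0, hf⟩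

end Pool.Agent.R672.RFV
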