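import Pool.Agent.R672.RFV.Gd

set_option autoImplicit false

namespace Pool.Agent.R672.RFV

open Pool.Agent.Helper294.HallC

section step

variable {B Γ A : Type} [CommRing B] [IsDomain B] [Group Γ] [AddCommGroup A] [Module B A]
  [DistribMulAction Γ A]

theorem S_head (t : Γ) (M : AddSubgroup A) (n : ℕ) (s : A) (hs : s ∈ noe_step_S t M n) :
    ∃ m ∈ M, t⁻¹ • (s - m) ∈ noe_step_S t M n := by
  induction hs using AddSubgroup.closure_induction with
  | mem a ha =>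
    obtain ⟨i, hi, x, hx, rfl⟩ := ha
    rcases i with _ | i
    · exact ⟨x, hx, by rw [pow_zero, one_smul, sub_self, smul_zero]; exact zero_mem _⟩
    · refine ⟨0, zero_mem _, ?_⟩
      rw [sub_zero, pow_succ', mul_smul, inv_smul_smul]
      exact noe_step_S_gen t M (by omega) hx
  | zero => exact ⟨0, zero_mem _, by rw [sub_zero, smul_zero]; exact zero_mem _⟩
  | add a b _ _ h1 h2 =>
    obtain ⟨m1, hm1, h1⟩ := h1
    obtain ⟨m2, hm2, h2⟩ := h2
    refine ⟨m1 + m2, add_mem hm1 hm2, ?_⟩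
    have : a + b - (m1 + m2) = (a - m1) + (b - m2) := by abel
    rw [this, smul_add]
    exact add_mem h1 h2
  | neg a _ h1 =>
    obtain ⟨m1, hm1, h1⟩ := h1
    refine ⟨-m1, neg_mem hm1, ?_⟩
    have : -a - -m1 = -(a - m1) := by abel
    rw [this, smul_neg]
    exact neg_mem h1

theorem gd_step (C R P : Subgroup Γ) (t : Γ) (hCR : C ≤ R) (hRP : R ≤ P) (ht : t ∈ P)
    (hn : ∀ x, x ∈ R ↔ t * x * t⁻¹ ∈ R) (hc : ∀ x ∈ P, ∃ k : ℤ, t ^ (-k) * x ∈ R)
    (M : AddSubgroup A) (hM : ∀ g ∈ R, ∀ x ∈ M, g • x ∈ M) (hN : NoeOn R M)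
    (hcomm : ∀ (g : Γ) (b : B) (a : A), g • b • a = b • g • a)
    (hCB : ∀ X : AddSubgroup A, (∀ c ∈ C, ∀ x ∈ X, c • x ∈ X) → ∀ b : B, ∀ x ∈ X, b • x ∈ X)
    (hG : ∀ X ≤ M, (∀ g ∈ R, ∀ x ∈ X, g • x ∈ X) →
      ∃ f : B, f ≠ 0 ∧ ∀ π : B, Prime π → ¬ π ∣ f → Gd π X M)
    (X : AddSubgroup A) (hXP : ∀ g ∈ P, ∀ x ∈ X, g • x ∈ X) :
    ∃ f : B, f ≠ 0 ∧ ∀ π : B, Prime π → ¬ π ∣ f →
      Gd π X (AddSubgroup.closure {a : A | ∃ g ∈ P, ∃ x ∈ M, a = g • x}) := by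
  classical
  have hRB : ∀ X : AddSubgroup A, (∀ g ∈ R, ∀ x ∈ X, g • x ∈ X) → ∀ b : B, ∀ x ∈ X, b • x ∈ X :=
    fun X h => hCB X fun c hc => h c (hCR hc)
  have hMB := hRB M hM
  have hXB := hRB X fun g hg => hXP g (hRP hg)
  have hSR := fun n => noe_step_S_R hn hM n
  -- the chain `Y n`
  let Y : ℕ → AddSubgroup A := fun n => X ⊔ noe_step_S t M n
  have hYmono : Monotone Y := fun i j hij => sup_le_sup le_rfl (noe_step_S_mono t M hij)
  have hYR : ∀ n, ∀ g ∈ R, ∀ y ∈ Y n, g • y ∈ Y n := by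
    intro n g hg y hy
    obtain ⟨x, hx, s, hs, rfl⟩ := AddSubgroup.mem_sup.1 hy
    rw [smul_add]
    exact AddSubgroup.add_mem _ (AddSubgroup.mem_sup_left (hXP g (hRP hg) x hx))
      (AddSubgroup.mem_sup_right (hSR n g hg s hs))
  have hYB := fun n => hRB (Y n) (hYR n)
  have hY0 : Y 0 = X := by
    apply le_antisymm (sup_le le_rfl _) le_sup_left
    intro z hz
    rw [noe_step_S_zero t M z hz]
    exact zero_mem _
  have hL : ∀ n, ∀ m ∈ M, m ∈ noe_step_L t M n X ↔ t ^ n • m ∈ Y n := by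
    intro n m hm
    constructor
    · rintro ⟨_, z, hz, h⟩
      have h1 : t ^ n • m = z - (z - t ^ n • m) := by abel
      rw [h1]
      exact AddSubgroup.sub_mem _ (AddSubgroup.mem_sup_left hz) (AddSubgroup.mem_sup_right h)
    · intro h
      obtain ⟨x, hx, s, hs, h1⟩ := AddSubgroup.mem_sup.1 h
      refine ⟨hm, x, hx, ?_⟩
      rw [← h1, sub_add_cancel_left]
      exact neg_mem hs
  have hLR : ∀ n, ∀ g ∈ R, ∀ x ∈ noe_step_L t M n X, g • x ∈ noe_step_L t M n X :=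
    fun n g hg x hx => noe_step_L_R hRP hn hM n X hXP g hg x hx
  have hLM : ∀ n, noe_step_L t M n X ≤ M := fun n x hx => hx.1
  obtain ⟨n₀, hn₀⟩ := hN (fun n => noe_step_L t M n X)
    (monotone_nat_of_le_succ fun n => noe_step_L_succ t ht M n X hXP)
    (fun n => ⟨hLM n, hLR n⟩)
  choose f hf0 hf using fun n => hG _ (hLM n) (hLR n)
  -- the union `U₀`
  let U₀ : AddSubgroup A := ⨆ n, Y n
  have hU₀ : ∀ u, u ∈ U₀ ↔ ∃ n, u ∈ Y n := fun u =>
    AddSubgroup.mem_iSup_of_directed hYmono.directed_le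
  have hU₀R : ∀ g ∈ R, ∀ u ∈ U₀, g • u ∈ U₀ := by
    intro g hg u hu
    obtain ⟨n, hn⟩ := (hU₀ u).1 hu
    exact (hU₀ _).2 ⟨n, hYR n g hg u hn⟩
  have hU₀t : ∀ u ∈ U₀, t • u ∈ U₀ := by
    intro u hu
    obtain ⟨n, hn⟩ := (hU₀ u).1 hu
    obtain ⟨x, hx, s, hs, rfl⟩ := AddSubgroup.mem_sup.1 hn
    refine (hU₀ _).2 ⟨n + 1, ?_⟩
    rw [smul_add]
    exact AddSubgroup.add_mem _ (AddSubgroup.mem_sup_left (hXP t ht x hx))
      (AddSubgroup.mem_sup_right (noe_step_S_t t M n s hs))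
  let V : AddSubgroup A := U₀.comap (DistribMulAction.toAddMonoidHom A t⁻¹)
  have hV : ∀ a, a ∈ V ↔ t⁻¹ • a ∈ U₀ := fun a => Iff.rfl
  have hVU : V ≤ U₀ := by
    intro a ha
    have := hU₀t _ ((hV a).1 ha)
    rwa [smul_inv_smul] at this
  have hVR : ∀ g ∈ R, ∀ u ∈ V, g • u ∈ V := by
    intro g hg u hu
    rw [hV, ← mul_smul]
    have h1 : t⁻¹ * g * t ∈ R := by
      rw [hn]
      have : t * (t⁻¹ * g * t) * t⁻¹ = g := by group
      rwa [this]
    have h2 : t⁻¹ * g = (t⁻¹ * g * t) * t⁻¹ := by group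
    rw [h2, mul_smul]
    exact hU₀R _ h1 _ ((hV u).1 hu)
  obtain ⟨f', hf'0, hf'⟩ := hG (M ⊓ V) inf_le_left
    (fun g hg x hx => ⟨hM g hg x hx.1, hVR g hg x hx.2⟩)
  -- the chain `U j`
  let U : ℕ → AddSubgroup A := fun j => U₀.comap (DistribMulAction.toAddMonoidHom A (t ^ j))
  have hU : ∀ j a, a ∈ U j ↔ t ^ j • a ∈ U₀ := fun j a => Iff.rfl
  have hUR : ∀ j, ∀ g ∈ R, ∀ u ∈ U j, g • u ∈ U j := by
    intro j g hg u hu
    rw [hU]
    have h2 : t ^ j • g • u = (t ^ j * g * (t ^ j)⁻¹) • t ^ j • u := by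
      rw [← mul_smul, ← mul_smul]; congr 1; group
    rw [h2]
    exact hU₀R _ ((noe_step_conj hn j g).1 hg) _ ((hU j u).1 hu)
  have hUsucc : ∀ j, U j ≤ U (j + 1) := by
    intro j a ha
    rw [hU, pow_succ', mul_smul]
    exact hU₀t _ ((hU j a).1 ha)
  have hU0 : U 0 = U₀ := by
    ext a; rw [hU, pow_zero, one_smul]
  refine ⟨(∏ n ∈ Finset.range (n₀ + 1), f n) * f',
    mul_ne_zero (Finset.prod_ne_zero_iff.2 fun n _ => hf0 n) hf'0, ?_⟩
  intro π hπ hπf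
  have hπ1 : ∀ n, Gd π (noe_step_L t M n X) M := by
    have h1 : ∀ n, n ≤ n₀ → Gd π (noe_step_L t M n X) M := by
      intro n hn
      apply hf n π hπ
      intro h
      exact hπf (dvd_mul_of_dvd_left (h.trans (Finset.dvd_prod_of_mem f
        (Finset.mem_range.2 (Nat.lt_succ_of_le hn)))) _)
    intro n
    rcases le_total n n₀ with hn | hn
    · exact h1 n hn
    · have h2 : noe_step_L t M n X = noe_step_L t M n₀ X := hn₀ n hn
      rw [h2]; exact h1 n₀ le_rfl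
  have hπ2 : Gd π (M ⊓ V) M := hf' π hπ fun h => hπf (dvd_mul_of_dvd_right h _)
  have hYgd : ∀ n, Gd π (Y n) (Y (n + 1)) := by
    intro n
    refine Gd.transport (DistribMulAction.toAddMonoidHom A (t ^ n)) (fun b x => hcomm _ b x)
      (hYB n) hMB (fun m hm => hL n m hm) (hYmono (Nat.le_succ n)) ?_ (hπ1 n)
    intro y hy
    obtain ⟨x, hx, s', hs', rfl⟩ := AddSubgroup.mem_sup.1 hy
    obtain ⟨m, hm, s, hs, rfl⟩ := noe_step_S_succ t M n s' hs'
    refine ⟨m, hm, ?_⟩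
    have : x + (t ^ n • m + s) - (DistribMulAction.toAddMonoidHom A (t ^ n)) m = x + s := by
      show x + (t ^ n • m + s) - t ^ n • m = x + s
      abel
    rw [this]
    exact AddSubgroup.add_mem _ (AddSubgroup.mem_sup_left hx) (AddSubgroup.mem_sup_right hs)
  have hXU : Gd π X U₀ := by
    have := Gd.union Y hYmono hYB hYgd U₀ (fun u hu => (hU₀ u).1 hu)
    rwa [hY0] at this
  have hVgd : Gd π V U₀ := by
    refine Gd.transport (AddMonoidHom.id A) (fun b x => rfl) (hRB V hVR) hMB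
      (K := M ⊓ V) (M₀ := M) (fun m hm => ⟨fun h => h.2, fun h => ⟨hm, h⟩⟩) hVU ?_ hπ2
    intro u hu
    obtain ⟨n, hn⟩ := (hU₀ u).1 hu
    obtain ⟨x, hx, s, hs, rfl⟩ := AddSubgroup.mem_sup.1 hn
    obtain ⟨m, hm, h1⟩ := S_head t M n s hs
    refine ⟨m, hm, ?_⟩
    rw [hV]
    show t⁻¹ • (x + s - m) ∈ U₀
    rw [add_sub_assoc, smul_add]
    exact (hU₀ _).2 ⟨n, AddSubgroup.add_mem _ (AddSubgroup.mem_sup_left
      (hXP _ (P.inv_mem ht) x hx)) (AddSubgroup.mem_sup_right h1)⟩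
  have hUgd : ∀ j, Gd π (U j) (U (j + 1)) := by
    intro j
    refine Gd.transport (DistribMulAction.toAddMonoidHom A (t ^ (j + 1))⁻¹)
      (fun b x => hcomm _ b x) (hRB _ (hUR j)) (hRB _ hU₀R) (K := V) (M₀ := U₀) ?_ (hUsucc j) ?_ hVgd
    · intro m _
      rw [hU, hV]
      have : t ^ j • (DistribMulAction.toAddMonoidHom A (t ^ (j + 1))⁻¹) m = t⁻¹ • m := by
        show t ^ j • (t ^ (j + 1))⁻¹ • m = t⁻¹ • m
        rw [← mul_smul]; congr 1
        rw [pow_succ]; group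
      rw [this]
    · intro y hy
      refine ⟨t ^ (j + 1) • y, (hU _ _).1 hy, ?_⟩
      have : y - (DistribMulAction.toAddMonoidHom A (t ^ (j + 1))⁻¹) (t ^ (j + 1) • y) = 0 := by
        show y - (t ^ (j + 1))⁻¹ • t ^ (j + 1) • y = 0
        rw [inv_smul_smul, sub_self]
      rw [this]
      exact zero_mem _
  -- the final chain
  let W : ℕ → AddSubgroup A := fun j => Nat.casesOn j X U
  have hXU0 : X ≤ U 0 := by
    rw [hU0]
    intro x hx
    exact (hU₀ x).2 ⟨0, AddSubgroup.mem_sup_left hx⟩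
  have hW : Monotone W := monotone_nat_of_le_succ (by
    rintro (_ | j)
    · exact hXU0
    · exact hUsucc j)
  have h := Gd.union W hW (by
      rintro (_ | j)
      · exact hXB
      · exact hRB _ (hUR j)) (by
      rintro (_ | j)
      · show Gd π X (U 0)
        rw [hU0]; exact hXU
      · exact hUgd j)
    (AddSubgroup.closure {a : A | ∃ g ∈ P, ∃ x ∈ M, a = g • x}) (by
      intro z hz
      obtain ⟨K, n, hKn⟩ := noe_step_cover hc hM z hz
      refine ⟨K + 1, ?_⟩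
      show z ∈ U K
      rw [hU]
      exact (hU₀ _).2 ⟨n, AddSubgroup.mem_sup_right hKn⟩)
  exact h

end step

end Pool.Agent.R672.RFV
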