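import Pool.Agent.R672.RFV.Mono
import Pool.Agent.H53R2.UB2
import Pool.Agent.Helper111.EN.Resid

set_option autoImplicit false

namespace Pool.Agent.R672.RFV

open Pool.Agent.Helper294.HallC Pool.Agent.H53R2
open scoped commutatorElement

section one

variable {G : Type} [Group G]

/-- the subgroup of the elements represented by a set of vectors -/
def wsub {Q E : Type} [Group Q] [AddCommGroup E] [DistribMulAction Q E] {p : G →* Q}
    {X Y : Subgroup G} (s : SecMod p X Y E) (B : AddSubgroup E) : Subgroup G where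
  carrier := {g | ∃ e ∈ B, s.rep g e}
  one_mem' := ⟨0, zero_mem _, s.rep_one⟩
  mul_mem' := by
    rintro a b ⟨e, he, h1⟩ ⟨f, hf, h2⟩
    exact ⟨e + f, add_mem he hf, SecMod.rep_mul h1 h2⟩
  inv_mem' := by
    rintro a ⟨e, he, h1⟩
    exact ⟨-e, neg_mem he, SecMod.rep_inv h1⟩

theorem wsub_normal {Q E : Type} [Group Q] [AddCommGroup E] [DistribMulAction Q E] {p : G →* Q}
    {X Y : Subgroup G} [Y.Normal] (s : SecMod p X Y E) (B : AddSubgroup E) (hB : Stb Q B) :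
    (wsub s B).Normal := by
  refine ⟨?_⟩
  rintro g ⟨e, he, h1⟩ x
  exact ⟨p x • e, hB _ _ he, SecMod.rep_conj h1 x⟩

theorem noe_of_maxN {Q E : Type} [Group Q] [AddCommGroup E] [DistribMulAction Q E] {p : G →* Q}
    {X Y : Subgroup G} [Y.Normal] (s : SecMod p X Y E) (h : MaxN G) : Noe Q E := by
  intro f hf hst
  rw [K_maxN_iff] at h
  obtain ⟨n, hn⟩ := h (fun i => wsub s (f i)) (fun i j hij g => by
      rintro ⟨e, he, h1⟩
      exact ⟨e, hf hij he, h1⟩) (fun i => wsub_normal s _ (hst i))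
  refine ⟨n, fun m hm => ?_⟩
  have key : ∀ i j, wsub s (f i) = wsub s (f j) → f i ≤ f j := by
    intro i j hij e he
    obtain ⟨g, hg⟩ := s.exists_rep e
    have h1 : g ∈ wsub s (f i) := ⟨e, he, hg⟩
    rw [hij] at h1
    obtain ⟨e', he', hg'⟩ := h1
    rwa [SecMod.rep_unique hg hg']
  exact le_antisymm (key m n (hn m hm)) (key n m (hn m hm).symm)

/-- the centre of `N` as a subgroup of `G` -/
def Zc (N : Subgroup G) : Subgroup G := N ⊓ Subgroup.centralizer (N : Set G)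

instance Zc_normal (N : Subgroup G) [N.Normal] : (Zc N).Normal := by
  unfold Zc; infer_instance

theorem mem_Zc {N : Subgroup G} {z : G} : z ∈ Zc N ↔ z ∈ N ∧ ∀ x ∈ N, x * z = z * x := by
  unfold Zc
  rw [Subgroup.mem_inf, Subgroup.mem_centralizer_iff]
  rfl

/-- the second centre of `N` as a subgroup of `G` -/
def Z2 (N : Subgroup G) : Subgroup G :=
  N ⊓ (Subgroup.centralizer ((N.map (QuotientGroup.mk' (Subgroup.normalClosure (Zc N : Set G))) :
    Subgroup (G ⧸ Subgroup.normalClosure (Zc N : Set G))) :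
    Set (G ⧸ Subgroup.normalClosure (Zc N : Set G)))).comap
    (QuotientGroup.mk' (Subgroup.normalClosure (Zc N : Set G)))

theorem mem_Z2 {N : Subgroup G} [N.Normal] {y : G} :
    y ∈ Z2 N ↔ y ∈ N ∧ ∀ x ∈ N, ⁅y, x⁆ ∈ Zc N := by
  have hcl : Subgroup.normalClosure (Zc N : Set G) = Zc N := Subgroup.normalClosure_eq_self _
  unfold Z2
  rw [Subgroup.mem_inf, Subgroup.mem_comap, Subgroup.mem_centralizer_iff]
  refine and_congr Iff.rfl ⟨fun h x hx => ?_, ?_⟩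
  · have h1 := h _ ⟨x, hx, rfl⟩
    have h2 : QuotientGroup.mk' (Subgroup.normalClosure (Zc N : Set G)) ⁅y, x⁆ = 1 := by
      rw [map_commutatorElement, commutatorElement_eq_one_iff_mul_comm]
      exact h1.symm
    have h3 := (QuotientGroup.eq_one_iff _).1 h2
    rwa [hcl] at h3
  · rintro h _ ⟨x, hx, rfl⟩
    have h2 : QuotientGroup.mk' (Subgroup.normalClosure (Zc N : Set G)) ⁅y, x⁆ = 1 := by
      rw [QuotientGroup.mk'_apply, QuotientGroup.eq_one_iff, hcl]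
      exact h x hx
    rw [map_commutatorElement, commutatorElement_eq_one_iff_mul_comm] at h2
    exact h2.symm

instance Z2_normal (N : Subgroup G) [N.Normal] : (Z2 N).Normal := by
  refine ⟨fun y hy g => ?_⟩
  rw [mem_Z2] at hy ⊢
  have hN : N.Normal := inferInstance
  refine ⟨hN.conj_mem y hy.1 g, fun x hx => ?_⟩
  have h1 : ⁅g * y * g⁻¹, x⁆ = g * ⁅y, g⁻¹ * x * g⁆ * g⁻¹ := by
    rw [conjugate_commutatorElement]; congr 1; group
  rw [h1]
  apply (Zc_normal N).conj_mem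
  apply hy.2
  have := hN.conj_mem x hx g⁻¹
  rwa [inv_inv] at this

/-- bilinearity -/
theorem comm_mul_right {N : Subgroup G} [N.Normal] {y a b : G} (hy : y ∈ Z2 N) (ha : a ∈ N)
    (hb : b ∈ N) : ⁅y, a * b⁆ = ⁅y, a⁆ * ⁅y, b⁆ := by
  have h1 := (mem_Zc.1 ((mem_Z2.1 hy).2 b hb)).2 a ha
  have h2 : ⁅y, a * b⁆ = ⁅y, a⁆ * (a * ⁅y, b⁆ * a⁻¹) := by
    simp only [commutatorElement_def]; group
  rw [h2, h1, mul_inv_cancel_right]

theorem comm_inv_right {N : Subgroup G} [N.Normal] {y a : G} (hy : y ∈ Z2 N) (ha : a ∈ N) :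
    ⁅y, a⁻¹⁆ = ⁅y, a⁆⁻¹ := by
  have h1 := comm_mul_right hy ha (N.inv_mem ha)
  rw [mul_inv_cancel, commutatorElement_one_right] at h1
  exact (inv_eq_of_mul_eq_one_right h1.symm).symm

theorem comm_pow_right {N : Subgroup G} [N.Normal] {y a : G} (hy : y ∈ Z2 N) (ha : a ∈ N)
    (k : ℕ) : ⁅y, a ^ k⁆ = ⁅y, a⁆ ^ k := by
  induction k with
  | zero => rw [pow_zero, pow_zero, commutatorElement_one_right]
  | succ k ih => rw [pow_succ, pow_succ, comm_mul_right hy (N.pow_mem ha k) ha, ih]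

theorem comm_comm_right {N : Subgroup G} [N.Normal] {y a b : G} (hy : y ∈ Z2 N) (ha : a ∈ N)
    (hb : b ∈ N) : ⁅y, ⁅a, b⁆⁆ = 1 := by
  have h1 := (mem_Z2.1 hy).2 a ha
  have h2 := (mem_Z2.1 hy).2 b hb
  have h3 : ⁅y, ⁅a, b⁆⁆ = ⁅y, a⁆ * ⁅y, b⁆ * ⁅y, a⁆⁻¹ * ⁅y, b⁆⁻¹ := by
    rw [commutatorElement_def a b, comm_mul_right hy
      (N.mul_mem (N.mul_mem ha hb) (N.inv_mem ha)) (N.inv_mem hb),
      comm_mul_right hy (N.mul_mem ha hb) (N.inv_mem ha), comm_mul_right hy ha hb,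
      comm_inv_right hy ha, comm_inv_right hy hb]
  rw [h3, (mem_Zc.1 h2).2 _ (mem_Zc.1 h1).1]
  group

end one

/-- the periodicity lemma -/
theorem period (u : UI) (G : Type) [Group G] (hG : u.Grp G) (N : Subgroup G) [N.Normal]
    (hfin : Finite ↥(Zc N)) :
    ∃ n : ℕ, 0 < n ∧ ∀ t : G, ∀ y ∈ Z2 N, ∀ x ∈ N, ⁅y, t ^ n * x * (t ^ n)⁻¹⁆ = ⁅y, x⁆ := by
  classical
  obtain ⟨K, hK⟩ := U_one u
  have hN : N.Normal := inferInstance
  haveI := Fintype.ofFinite ↥(Zc N)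
  let B : ℕ := Fintype.card (↥K → ↥(Zc N))
  refine ⟨B.factorial, Nat.factorial_pos B, ?_⟩
  intro t y hy x hx
  have hconj : ∀ (l : ℤ), ∀ a ∈ N, t ^ l * a * t ^ (-l) ∈ N := by
    intro l a ha
    rw [zpow_neg]; exact hN.conj_mem a ha _
  have hYN : Z2 N ≤ N := fun y hy => (mem_Z2.1 hy).1
  have hR : ⁅⁅Z2 N, N⁆, N⁆ ≤ (⊥ : Subgroup G) := by
    rw [Subgroup.commutator_le]
    intro a ha b hb
    have h1 : ⁅Z2 N, N⁆ ≤ Zc N := by
      rw [Subgroup.commutator_le]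
      exact fun y hy x hx => (mem_Z2.1 hy).2 x hx
    rw [Subgroup.mem_bot, commutatorElement_eq_one_iff_mul_comm]
    exact ((mem_Zc.1 (h1 ha)).2 b hb).symm
  let φ : ℤ → G := fun l => ⁅y, t ^ l * x * t ^ (-l)⁆
  have hφZ : ∀ l, φ l ∈ Zc N := fun l => (mem_Z2.1 hy).2 _ (hconj l x hx)
  let F : Fin (B + 1) → (↥K → ↥(Zc N)) := fun i k => ⟨φ (k + i), hφZ _⟩
  obtain ⟨i, j, hij, hF⟩ := Fintype.exists_ne_map_eq_of_card_lt F (by
    rw [Fintype.card_fin]; exact Nat.lt_succ_self B)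
  have key : ∀ i j : Fin (B + 1), i < j → F i = F j →
      ∃ d : ℕ, 0 < d ∧ d ≤ B ∧ ∀ l : ℤ, φ (l + d) = φ l := by
    intro i j hij hF
    refine ⟨j.1 - i.1, by omega, by omega, ?_⟩
    have hc : ((j.1 - i.1 : ℕ) : ℤ) = (j.1 : ℤ) - i.1 := by omega
    let x' : G := (t ^ (j.1 : ℤ) * x * t ^ (-(j.1 : ℤ))) * (t ^ (i.1 : ℤ) * x * t ^ (-(i.1 : ℤ)))⁻¹
    have hx' : x' ∈ N := N.mul_mem (hconj _ x hx) (N.inv_mem (hconj _ x hx))
    have hx'l : ∀ l : ℤ, ⁅y, t ^ l * x' * t ^ (-l)⁆ = φ (l + j.1) * (φ (l + i.1))⁻¹ := by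
      intro l
      have h1 : t ^ l * x' * t ^ (-l) = (t ^ (l + j.1) * x * t ^ (-(l + j.1))) *
          (t ^ (l + i.1) * x * t ^ (-(l + i.1)))⁻¹ := by
        show t ^ l * ((t ^ (j.1 : ℤ) * x * t ^ (-(j.1 : ℤ))) *
          (t ^ (i.1 : ℤ) * x * t ^ (-(i.1 : ℤ)))⁻¹) * t ^ (-l) = _
        rw [neg_add, neg_add, zpow_add, zpow_add, zpow_add, zpow_add]
        simp only [mul_inv_rev, zpow_neg, inv_inv, mul_assoc]
        group
      rw [h1, comm_mul_right hy (hconj _ x hx) (N.inv_mem (hconj _ x hx)),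
        comm_inv_right hy (hconj _ x hx)]
    have h2 := hK G hG N (Z2 N) ⊥ hYN hR y hy x' hx' t (by
      intro k hk
      rw [Subgroup.mem_bot, hx'l]
      have h3 := congrFun hF ⟨k, hk⟩
      have h4 : φ (k + i.1) = φ (k + j.1) := congrArg Subtype.val h3
      rw [h4, mul_inv_cancel])
    intro l
    have h3 := h2 (l - i.1)
    rw [Subgroup.mem_bot, hx'l, mul_inv_eq_one] at h3
    rw [hc]
    have e1 : l - (i.1 : ℤ) + j.1 = l + ((j.1 : ℤ) - i.1) := by ring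
    have e2 : l - (i.1 : ℤ) + i.1 = l := by ring
    rw [e1, e2] at h3
    exact h3
  obtain ⟨d, hd0, hdB, hd⟩ : ∃ d : ℕ, 0 < d ∧ d ≤ B ∧ ∀ l : ℤ, φ (l + d) = φ l := by
    rcases lt_or_gt_of_ne hij with h | h
    · exact key i j h hF
    · exact key j i h hF.symm
  obtain ⟨q, hq⟩ := Nat.dvd_factorial hd0 hdB
  have hmul : ∀ q : ℕ, φ ((d * q : ℕ) : ℤ) = φ 0 := by
    intro q
    induction q with
    | zero => simp
    | succ q ih =>
      have : ((d * (q + 1) : ℕ) : ℤ) = ((d * q : ℕ) : ℤ) + d := by push_cast; ring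
      rw [this, hd, ih]
  have h1 := hmul q
  rw [← hq] at h1
  have h2 : φ (B.factorial : ℤ) = ⁅y, t ^ B.factorial * x * (t ^ B.factorial)⁻¹⁆ := by
    show ⁅y, t ^ (B.factorial : ℤ) * x * t ^ (-(B.factorial : ℤ))⁆ = _
    rw [zpow_neg, zpow_natCast]
  have h3 : φ 0 = ⁅y, x⁆ := by
    show ⁅y, t ^ (0 : ℤ) * x * t ^ (-(0 : ℤ))⁆ = _
    simp
  rw [← h2, h1, h3]

end Pool.Agent.R672.RFV
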