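import Pool.Agent.R672.RFV.Grp

set_option autoImplicit false

namespace Pool.Agent.R672.RFV

open Pool.Agent.Helper294.HallC Pool.Agent.H53R2
open scoped commutatorElement

/-- if the centre of `N` is finite then so is the second centre -/
theorem z2_finite (u : UI) (G : Type) [Group G] [Group.FG G] (hG : u.Grp G) (hmax : MaxN G)
    (N : Subgroup G) [N.Normal] (m : ℕ) (hm : Lw (⊤ : Subgroup G) m ⊤ ≤ N)
    (hfin : Finite ↥(Zc N)) : Finite ↥(Z2 N) := by
  classical
  have hN : N.Normal := inferInstance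
  obtain ⟨n, hn, hper⟩ := period u G hG N hfin
  -- the kernel of the pairing
  let D : Subgroup G :=
    { carrier := {x | x ∈ N ∧ ∀ y ∈ Z2 N, ⁅y, x⁆ = 1}
      one_mem' := ⟨N.one_mem, fun y _ => commutatorElement_one_right y⟩
      mul_mem' := by
        rintro a b ⟨ha, ha'⟩ ⟨hb, hb'⟩
        exact ⟨N.mul_mem ha hb, fun y hy => by
          rw [comm_mul_right hy ha hb, ha' y hy, hb' y hy, one_mul]⟩
      inv_mem' := by
        rintro a ⟨ha, ha'⟩
        exact ⟨N.inv_mem ha, fun y hy => by rw [comm_inv_right hy ha, ha' y hy, inv_one]⟩ }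
  have hD : ∀ x, x ∈ D ↔ x ∈ N ∧ ∀ y ∈ Z2 N, ⁅y, x⁆ = 1 := fun x => Iff.rfl
  have hDn : D.Normal := by
    refine ⟨fun x hx g => ?_⟩
    refine ⟨hN.conj_mem x hx.1 g, fun y hy => ?_⟩
    have h1 : ⁅y, g * x * g⁻¹⁆ = g * ⁅g⁻¹ * y * g, x⁆ * g⁻¹ := by
      rw [conjugate_commutatorElement]; congr 1; group
    have h2 := (Z2_normal N).conj_mem y hy g⁻¹
    rw [inv_inv] at h2
    rw [h1, hx.2 _ h2]
    group
  -- the centraliser of `N / D`
  let P : Subgroup G :=
    { carrier := {g | ∀ x ∈ N, g * x * g⁻¹ * x⁻¹ ∈ D}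
      one_mem' := fun x _ => by simp
      mul_mem' := by
        intro a b ha hb x hx
        have h1 := ha _ (hN.conj_mem x hx b)
        have h2 := D.mul_mem h1 (hb x hx)
        have h3 : a * b * x * (a * b)⁻¹ * x⁻¹ =
            a * (b * x * b⁻¹) * a⁻¹ * (b * x * b⁻¹)⁻¹ * (b * x * b⁻¹ * x⁻¹) := by group
        rw [h3]; exact h2
      inv_mem' := by
        intro a ha x hx
        have hx' : a⁻¹ * x * a ∈ N := by
          have := hN.conj_mem x hx a⁻¹
          rwa [inv_inv] at this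
        have h1 := D.inv_mem (ha _ hx')
        have h3 : a⁻¹ * x * a⁻¹⁻¹ * x⁻¹ = (a * (a⁻¹ * x * a) * a⁻¹ * (a⁻¹ * x * a)⁻¹)⁻¹ := by group
        rw [h3]; exact h1 }
  have hP : ∀ g, g ∈ P ↔ ∀ x ∈ N, g * x * g⁻¹ * x⁻¹ ∈ D := fun g => Iff.rfl
  have hPn : P.Normal := by
    refine ⟨fun g hg h x hx => ?_⟩
    have hx' : h⁻¹ * x * h ∈ N := by
      have := hN.conj_mem x hx h⁻¹
      rwa [inv_inv] at this
    have h1 := hDn.conj_mem _ (hg _ hx') h
    have h3 : h * g * h⁻¹ * x * (h * g * h⁻¹)⁻¹ * x⁻¹ =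
        h * (g * (h⁻¹ * x * h) * g⁻¹ * (h⁻¹ * x * h)⁻¹) * h⁻¹ := by group
    rw [h3]; exact h1
  have hNP : N ≤ P := by
    intro g hg x hx
    refine ⟨N.mul_mem (N.mul_mem (N.mul_mem hg hx) (N.inv_mem hg)) (N.inv_mem hx), ?_⟩
    intro y hy
    have := comm_comm_right hy hg hx
    rwa [commutatorElement_def g x] at this
  have hpow : ∀ t : G, t ^ n ∈ P := by
    intro t x hx
    have hx' := hN.conj_mem x hx (t ^ n)
    refine ⟨N.mul_mem hx' (N.inv_mem hx), ?_⟩
    intro y hy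
    rw [comm_mul_right hy hx' (N.inv_mem hx), comm_inv_right hy hx, hper t y hy x hx,
      mul_inv_cancel]
  have hfgP : Group.FG (G ⧸ P) := QuotientGroup.fg _
  have hnilP : Group.IsNilpotent (G ⧸ P) := by
    apply E_nilp m
    have h3 := map_Lw (QuotientGroup.mk' P) (⊤ : Subgroup G) m ⊤
    rw [Subgroup.map_top_of_surjective _ (QuotientGroup.mk'_surjective P)] at h3
    rw [← h3, eq_bot_iff]
    rintro _ ⟨x, hx, rfl⟩
    exact (QuotientGroup.eq_one_iff x).2 (hNP (hm hx))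
  have hfinP : Finite (G ⧸ P) := by
    apply fin_nil _ n hn
    intro z _
    obtain ⟨t, rfl⟩ := QuotientGroup.mk'_surjective P z
    rw [← map_pow]
    exact (QuotientGroup.eq_one_iff _).2 (hpow t)
  -- the section `N / D`
  obtain ⟨E, _, _, ⟨s⟩⟩ := exists_secMod (QuotientGroup.mk' P) (QuotientGroup.mk'_surjective P) D N
    (by
      rw [Subgroup.commutator_le]
      intro a ha b hb
      have := hNP ha b hb
      rwa [← commutatorElement_def] at this)
    (by
      rw [QuotientGroup.ker_mk', Subgroup.commutator_le]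
      intro a ha b hb
      have := D.inv_mem (hb a ha)
      have h3 : ⁅a, b⁆ = (b * a * b⁻¹ * a⁻¹)⁻¹ := by rw [commutatorElement_def]; group
      rw [h3]; exact this)
  have hnoe : Noe (G ⧸ P) E := noe_of_maxN s hmax
  let e : ℕ := Nat.card ↥(Zc N)
  have he : 0 < e := Nat.card_pos
  have hexp : ∀ v : E, e • v = 0 := by
    intro v
    obtain ⟨x, hx⟩ := s.exists_rep v
    have h1 := SecMod.rep_zpow hx (e : ℤ)
    rw [zpow_natCast, natCast_zsmul] at h1
    have h2 : x ^ e ∈ D := by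
      refine ⟨N.pow_mem hx.1 e, fun y hy => ?_⟩
      rw [comm_pow_right hy hx.1]
      have h3 : (⟨⁅y, x⁆, (mem_Z2.1 hy).2 x hx.1⟩ : ↥(Zc N)) ^ e = 1 := pow_card_eq_one'
      exact congrArg Subtype.val h3
    obtain ⟨h3, h4⟩ := h1
    have h5 := (s.ker ⟨x ^ e, h3⟩).2 h2
    rw [h5] at h4
    exact (Multiplicative.ofAdd.injective h4).symm
  have hEfin : Finite E := by
    have hq : Finite ((G ⧸ P) ⧸ (⊥ : Subgroup (G ⧸ P))) := inferInstance
    have h := finite_of_finite_quot hnoe e he hexp (⊥ : Subgroup (G ⧸ P)) hq ⊤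
      (fun _ _ _ => trivial) (fun g hg x _ => by rw [Subgroup.mem_bot.1 hg, one_smul])
    rw [AddSubgroup.coe_top] at h
    exact Set.finite_univ_iff.1 h
  -- the second centre embeds in maps modulo the centre
  choose r hr using s.exists_rep
  let Ψ : ↥(Z2 N) → (E → ↥(Zc N)) := fun y v =>
    ⟨⁅(y : G), r v⁆, (mem_Z2.1 y.2).2 _ (hr v).1⟩
  have hΨ : ∀ y y' : ↥(Z2 N), Ψ y = Ψ y' → ((y' : G)⁻¹ * y) ∈ Zc N := by
    intro y y' hyy
    rw [mem_Zc]
    refine ⟨N.mul_mem (N.inv_mem (mem_Z2.1 y'.2).1) (mem_Z2.1 y.2).1, fun x hx => ?_⟩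
    have hcomm : ⁅(y : G), x⁆ = ⁅(y' : G), x⁆ := by
      let v : E := (s.π ⟨x, hx⟩).toAdd
      have hxv : s.rep x v := ⟨hx, rfl⟩
      have h1 : s.rep ((r v)⁻¹ * x) (-v + v) := SecMod.rep_mul (SecMod.rep_inv (hr v)) hxv
      rw [neg_add_cancel] at h1
      have h2 : (r v)⁻¹ * x ∈ D := (s.ker ⟨_, h1.1⟩).1 h1.2
      have h3 : x = r v * ((r v)⁻¹ * x) := by rw [mul_inv_cancel_left]
      have h4 : ∀ y : ↥(Z2 N), ⁅(y : G), x⁆ = ⁅(y : G), r v⁆ := by
        intro y
        rw [h3, comm_mul_right y.2 (hr v).1 h2.1, h2.2 y y.2, mul_one]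
      rw [h4, h4]
      exact congrArg Subtype.val (congrFun hyy v)
    rw [commutatorElement_def, commutatorElement_def] at hcomm
    have h5 : (y : G) * x * (y : G)⁻¹ = y' * x * (y' : G)⁻¹ := by
      have := congrArg (· * x) hcomm
      simpa using this
    calc x * ((y' : G)⁻¹ * y) = (y' : G)⁻¹ * (y' * x * (y' : G)⁻¹) * y := by group
      _ = (y' : G)⁻¹ * (y * x * (y : G)⁻¹) * y := by rw [h5]
      _ = (y' : G)⁻¹ * y * x := by group
  have hfinal : (Set.univ : Set ↥(Z2 N)).Finite := by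
    refine Set.Finite.of_finite_fibers Ψ (Set.toFinite _) ?_
    rintro _ ⟨y', _, rfl⟩
    refine (Set.finite_range (fun z : ↥(Zc N) =>
      (⟨(y' : G) * (z : G), (Z2 N).mul_mem y'.2 (by
        rw [mem_Z2]
        refine ⟨(mem_Zc.1 z.2).1, fun x hx => ?_⟩
        have : ⁅(z : G), x⁆ = 1 := by
          rw [commutatorElement_eq_one_iff_mul_comm]
          exact ((mem_Zc.1 z.2).2 x hx).symm
        rw [this]
        exact one_mem _)⟩ : ↥(Z2 N)))).subset ?_
    rintro y ⟨_, hy⟩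
    refine ⟨⟨(y' : G)⁻¹ * y, hΨ y y' hy⟩, ?_⟩
    apply Subtype.ext
    show (y' : G) * ((y' : G)⁻¹ * y) = y
    rw [mul_inv_cancel_left]
  exact Set.finite_univ_iff.1 hfinal

/-- if the centre of `N` is finite then `N` is finite -/
theorem n_finite (u : UI) (c : ℕ) : ∀ (G : Type) [Group G] [Group.FG G], u.Grp G → MaxN G →
    ∀ (N : Subgroup G) [N.Normal] (m : ℕ), Lw (⊤ : Subgroup G) m ⊤ ≤ N → Lw N c N = ⊥ →
    Finite ↥(Zc N) → Finite ↥N := by
  induction c with
  | zero =>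
    intro G _ _ _ _ N _ m _ h _
    rw [Lw_zero] at h
    rw [h]
    infer_instance
  | succ c ih =>
    intro G _ _ hG hmax N hNn m hm h hfin
    have hfin2 := z2_finite u G hG hmax N m hm hfin
    let q : G →* G ⧸ Zc N := QuotientGroup.mk' (Zc N)
    have hq : Function.Surjective q := QuotientGroup.mk'_surjective _
    have hker : ∀ x, q x = 1 ↔ x ∈ Zc N := fun x => QuotientGroup.eq_one_iff x
    have hN' : (N.map q).Normal := hNn.map q hq
    have hfg : Group.FG (G ⧸ Zc N) := QuotientGroup.fg _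
    have h1 : Lw (N.map q) c (N.map q) = ⊥ := by
      rw [← map_Lw, eq_bot_iff]
      rintro _ ⟨x, hx, rfl⟩
      rw [Subgroup.mem_bot, hker, mem_Zc]
      refine ⟨Lw_le N N c hx, fun y hy => ?_⟩
      have h2 : ⁅x, y⁆ ∈ Lw N (c + 1) N := by
        rw [Lw_succ]
        exact Subgroup.commutator_mem_commutator hx hy
      rw [h, Subgroup.mem_bot, commutatorElement_eq_one_iff_mul_comm] at h2
      exact h2.symm
    have h2 : Lw (⊤ : Subgroup (G ⧸ Zc N)) m ⊤ ≤ N.map q := by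
      have h3 := map_Lw q (⊤ : Subgroup G) m ⊤
      rw [Subgroup.map_top_of_surjective _ hq] at h3
      rw [← h3]
      exact Subgroup.map_mono hm
    have h3 : Finite ↥(Zc (N.map q)) := by
      have hmem : ∀ y : ↥(Z2 N), q y ∈ Zc (N.map q) := by
        intro y
        obtain ⟨hy1, hy2⟩ := mem_Z2.1 y.2
        rw [mem_Zc]
        refine ⟨⟨y, hy1, rfl⟩, ?_⟩
        rintro _ ⟨x, hx, rfl⟩
        have h5 : q ⁅(y : G), x⁆ = 1 := (hker _).2 (hy2 x hx)
        rw [map_commutatorElement, commutatorElement_eq_one_iff_mul_comm] at h5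
        exact h5.symm
      apply Finite.of_surjective (fun y : ↥(Z2 N) => (⟨q y, hmem y⟩ : ↥(Zc (N.map q))))
      rintro ⟨w, hw⟩
      obtain ⟨⟨y, hy, rfl⟩, hw2⟩ := mem_Zc.1 hw
      refine ⟨⟨y, mem_Z2.2 ⟨hy, fun x hx => ?_⟩⟩, rfl⟩
      rw [← hker, map_commutatorElement, commutatorElement_eq_one_iff_mul_comm]
      exact (hw2 (q x) ⟨x, hx, rfl⟩).symm
    have h4 : Finite ↥(N.map q) := ih (G ⧸ Zc N) (hG.of_surjective q hq)
      (hmax.of_surjective q hq) (N.map q) m h2 h1 h3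
    have h5 : (N : Set G).Finite := by
      refine Set.Finite.of_finite_fibers q ?_ ?_
      · exact (Set.toFinite ((N.map q : Subgroup (G ⧸ Zc N)) : Set (G ⧸ Zc N))).subset
          (fun w hw => hw)
      · rintro _ ⟨x₀, _, rfl⟩
        refine (Set.finite_range (fun z : ↥(Zc N) => x₀ * (z : G))).subset ?_
        rintro x ⟨_, hx⟩
        refine ⟨⟨x₀⁻¹ * x, ?_⟩, by show x₀ * (x₀⁻¹ * x) = x; rw [mul_inv_cancel_left]⟩
        rw [← hker, map_mul, map_inv]
        have : q x = q x₀ := hx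
        rw [this, inv_mul_cancel]
    exact h5.to_subtype

/-- residually finite -/
def RFin (G : Type) [Group G] : Prop :=
  ∀ g : G, g ≠ 1 → ∃ H : Subgroup G, H.Normal ∧ H.FiniteIndex ∧ g ∉ H

theorem rfin_of_finiteIndex {G : Type} [Group G] (G₁ : Subgroup G) [G₁.Normal] [G₁.FiniteIndex]
    (h : RFin ↥G₁) : RFin G := by
  intro g hg
  by_cases hgG : g ∈ G₁
  · obtain ⟨H, _, hH2, hH3⟩ := h ⟨g, hgG⟩ (fun h => hg (congrArg Subtype.val h))
    have hfi : (H.map G₁.subtype).FiniteIndex := by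
      constructor
      rw [Subgroup.index_map_subtype]
      exact mul_ne_zero hH2.index_ne_zero Subgroup.FiniteIndex.index_ne_zero
    refine ⟨(H.map G₁.subtype).normalCore, inferInstance, inferInstance, fun hmem => ?_⟩
    obtain ⟨x, hx, hxg⟩ := Subgroup.normalCore_le _ hmem
    apply hH3
    have : x = ⟨g, hgG⟩ := Subtype.ext hxg
    rwa [← this]
  · exact ⟨G₁, inferInstance, inferInstance, hgG⟩

theorem rfin_nil (G : Type) [Group G] [Group.FG G] [Group.IsNilpotent G] : RFin G := by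
  intro g hg
  obtain ⟨r, _, _, N, hN, hgN, hfin, _⟩ := Helper111.EN.resid (K := G) ∅ (by simp) 2
    Nat.prime_two (by simp) (by simp) g hg
  exact ⟨N, hN, Subgroup.finiteIndex_of_finite_quotient, hgN⟩

theorem rfin_of_finite_lw (G : Type) [Group G] [Group.FG G] (m : ℕ)
    (h : Finite ↥(Lw (⊤ : Subgroup G) m ⊤)) : RFin G := by
  set N := Lw (⊤ : Subgroup G) m ⊤ with hN
  have hNn : N.Normal := by rw [hN]; infer_instance
  let ρ : G →* MulAut ↥N := MulAut.conjNormal
  have hfin : Finite (MulAut ↥N) :=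
    Finite.of_injective (fun e : MulAut ↥N => (e : ↥N → ↥N)) (fun a b hab => by
      ext x
      exact congrArg Subtype.val (congrFun hab x))
  have hfi : ρ.ker.FiniteIndex := inferInstance
  have hfg : Group.FG ↥ρ.ker := Subgroup.fg_of_index_ne_zero ρ.ker
  have hcent : ⁅N, ρ.ker⁆ = ⊥ := by
    rw [eq_bot_iff, Subgroup.commutator_le]
    intro a ha b hb
    rw [Subgroup.mem_bot, commutatorElement_eq_one_iff_mul_comm]
    have h1 : ρ b = 1 := hb
    have h2 := congrArg (fun e : MulAut ↥N => ((e ⟨a, ha⟩ : ↥N) : G)) h1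
    have h3 : b * a * b⁻¹ = a := h2
    calc a * b = b * a * b⁻¹ * b := by rw [h3]
      _ = b * a := by group
  have hnil : Group.IsNilpotent ↥ρ.ker := by
    apply E_nilp (m + 1)
    apply Subgroup.map_injective ρ.ker.subtype_injective
    rw [E_map_mk, Subgroup.map_bot, Lw_succ, eq_bot_iff, ← hcent]
    exact Subgroup.commutator_mono (Lw_mono le_top le_top m) le_rfl
  exact rfin_of_finiteIndex ρ.ker (rfin_nil _)

theorem mono_case (u : UI) (G : Type) [Group G] [Group.FG G] (hG : u.Grp G) (hmax : MaxN G)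
    (m c : ℕ) (h : Lw (Lw (⊤ : Subgroup G) m ⊤) c (Lw (⊤ : Subgroup G) m ⊤) = ⊥)
    (g : G) (hg : g ≠ 1) (hmono : ∀ H : Subgroup G, H.Normal → H ≠ ⊥ → g ∈ H) :
    Finite ↥(Lw (⊤ : Subgroup G) m ⊤) := by
  classical
  set N := Lw (⊤ : Subgroup G) m ⊤ with hN
  have hNn : N.Normal := by rw [hN]; infer_instance
  by_cases hN0 : N = ⊥
  · rw [hN0]; infer_instance
  -- the centre is nontrivial
  have hZ : Zc N ≠ ⊥ := by
    have hex : ∃ i, Lw N i N = ⊥ := ⟨c, h⟩
    have h0 : Nat.find hex ≠ 0 := by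
      intro h0
      have := Nat.find_spec hex
      rw [h0, Lw_zero] at this
      exact hN0 this
    obtain ⟨i, hi⟩ := Nat.exists_eq_succ_of_ne_zero h0
    have h1 : Lw N (i + 1) N = ⊥ := by rw [← Nat.succ_eq_add_one, ← hi]; exact Nat.find_spec hex
    have h2 : Lw N i N ≠ ⊥ := Nat.find_min hex (by omega)
    intro hZ
    apply h2
    rw [eq_bot_iff, ← hZ]
    intro x hx
    rw [mem_Zc]
    refine ⟨Lw_le N N i hx, fun y hy => ?_⟩
    have h3 : ⁅x, y⁆ ∈ Lw N (i + 1) N := by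
      rw [Lw_succ]
      exact Subgroup.commutator_mem_commutator hx hy
    rw [h1, Subgroup.mem_bot, commutatorElement_eq_one_iff_mul_comm] at h3
    exact h3.symm
  let p : G →* G ⧸ N := QuotientGroup.mk' N
  have hp : Function.Surjective p := QuotientGroup.mk'_surjective N
  have hker : p.ker = N := QuotientGroup.ker_mk' N
  have hfg : Group.FG (G ⧸ N) := QuotientGroup.fg _
  have hnil : Group.IsNilpotent (G ⧸ N) := by
    apply E_nilp m
    have h3 := map_Lw p (⊤ : Subgroup G) m ⊤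
    rw [Subgroup.map_top_of_surjective _ hp] at h3
    rw [← h3, eq_bot_iff]
    rintro _ ⟨x, hx, rfl⟩
    exact (QuotientGroup.eq_one_iff x).2 hx
  have hcomm : ⁅Zc N, N⁆ ≤ (⊥ : Subgroup G) := by
    rw [Subgroup.commutator_le]
    intro a ha b hb
    rw [Subgroup.mem_bot, commutatorElement_eq_one_iff_mul_comm]
    exact ((mem_Zc.1 ha).2 b hb).symm
  obtain ⟨E, _, _, ⟨s⟩⟩ := exists_secMod p hp ⊥ (Zc N)
    ((Subgroup.commutator_mono le_rfl (fun x hx => (mem_Zc.1 hx).1)).trans hcomm)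
    (by rw [hker]; exact hcomm)
  have hnoe : Noe (G ⧸ N) E := noe_of_maxN s hmax
  have hgZ : g ∈ Zc N := hmono _ inferInstance hZ
  have hg0 : s.rep g (s.π ⟨g, hgZ⟩).toAdd := ⟨hgZ, rfl⟩
  have hE : Finite E := by
    refine mono_finite hnoe (s.π ⟨g, hgZ⟩).toAdd ?_ ?_
    · intro h0
      rw [h0] at hg0
      exact hg (Subgroup.mem_bot.1 ((s.ker ⟨g, hg0.1⟩).1 hg0.2))
    · intro X hX hX0
      have h1 : wsub s X ≠ ⊥ := by
        intro h1
        apply hX0
        rw [eq_bot_iff]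
        intro e he
        obtain ⟨x, hx⟩ := s.exists_rep e
        have h2 : x ∈ wsub s X := ⟨e, he, hx⟩
        rw [h1, Subgroup.mem_bot] at h2
        subst h2
        rw [AddSubgroup.mem_bot]
        exact SecMod.rep_unique hx s.rep_one
      obtain ⟨e, he, hge⟩ := hmono _ (wsub_normal s X hX) h1
      rwa [SecMod.rep_unique hg0 hge]
  have hZfin : Finite ↥(Zc N) := by
    have hinj : Function.Injective (fun z : ↥(Zc N) => (s.π z).toAdd) := by
      intro a b hab
      have h1 : s.π (a⁻¹ * b) = 1 := by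
        rw [map_mul, map_inv]
        have h2 : s.π a = s.π b := hab
        rw [h2, inv_mul_cancel]
      rw [s.ker, Subgroup.mem_bot] at h1
      apply Subtype.ext
      have h3 : ((a : G))⁻¹ * b = 1 := h1
      exact inv_mul_eq_one.1 h3
    exact Finite.of_injective _ hinj
  exact n_finite u c G hG hmax N m le_rfl h hZfin

theorem rfin_core (u : UI) (G : Type) [Group G] [Group.FG G] (hG : u.Grp G) (hmax : MaxN G)
    (m c : ℕ) (h : Lw (Lw (⊤ : Subgroup G) m ⊤) c (Lw (⊤ : Subgroup G) m ⊤) = ⊥) : RFin G := by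
  intro g hg
  obtain ⟨K, ⟨hK1, hK2⟩, hKmax⟩ := hmax.exists_max (fun N => N.Normal ∧ g ∉ N) (fun N h => h.1)
    ⟨⊥, inferInstance, fun h => hg (Subgroup.mem_bot.1 h)⟩
  let q : G →* G ⧸ K := QuotientGroup.mk' K
  have hq : Function.Surjective q := QuotientGroup.mk'_surjective _
  have hker : ∀ x, q x = 1 ↔ x ∈ K := fun x => QuotientGroup.eq_one_iff x
  have hfg : Group.FG (G ⧸ K) := QuotientGroup.fg _
  have hLw : Lw (Lw (⊤ : Subgroup (G ⧸ K)) m ⊤) c (Lw (⊤ : Subgroup (G ⧸ K)) m ⊤) = ⊥ := by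
    have h3 := map_Lw q (⊤ : Subgroup G) m ⊤
    rw [Subgroup.map_top_of_surjective _ hq] at h3
    rw [← h3, ← map_Lw, h, Subgroup.map_bot]
  have hfin := mono_case u (G ⧸ K) (hG.of_surjective q hq) (hmax.of_surjective q hq) m c hLw (q g)
    (fun h => hK2 ((hker g).1 h)) (by
      intro H hH hH0
      by_contra hcon
      apply hH0
      have h1 : H.comap q = K := hKmax _ ⟨hH.comap q, hcon⟩ (by
        intro x hx
        rw [Subgroup.mem_comap, (hker x).2 hx]
        exact H.one_mem)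
      rw [eq_bot_iff]
      intro w hw
      obtain ⟨x, rfl⟩ := hq w
      have h2 : x ∈ H.comap q := hw
      rw [h1] at h2
      rw [Subgroup.mem_bot, hker]
      exact h2)
  obtain ⟨H, hH1, hH2, hH3⟩ := rfin_of_finite_lw (G ⧸ K) m hfin (q g)
    (fun h => hK2 ((hker g).1 h))
  refine ⟨H.comap q, hH1.comap q, ?_, hH3⟩
  constructor
  rw [Subgroup.index_comap_of_surjective _ hq]
  exact hH2.index_ne_zero

/-- **main theorem**: finitely generated soluble groups with the universal identity are residually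
finite -/
theorem rfin_main (u : UI) (d : ℕ) (G : Type) [Group G] [Group.FG G] (hG : u.Grp G)
    (hd : derivedSeries G d = ⊥) : RFin G := by
  obtain ⟨⟨G₁, h1, h2, m, c, h3⟩, _⟩ := U_main u d G hG hd
  have hfg : Group.FG ↥G₁ := Subgroup.fg_of_index_ne_zero G₁
  have hLw : Lw (Lw (⊤ : Subgroup ↥G₁) m ⊤) c (Lw (⊤ : Subgroup ↥G₁) m ⊤) = ⊥ := by
    apply Subgroup.map_injective G₁.subtype_injective
    rw [map_Lw, E_map_mk, Subgroup.map_bot, h3]
  exact rfin_of_finiteIndex G₁ (rfin_core u ↥G₁ (hG.subgroup G₁)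
    (U_B2core u ↥G₁ (hG.subgroup G₁) m c hLw) m c hLw)

end Pool.Agent.R672.RFV
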