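import Mathlib

set_option autoImplicit false

namespace Pool.Agent.R672.RFV

open LaurentPolynomial

variable (K : Type) [Field K]

theorem laur_pid : IsPrincipalIdealRing K[T;T⁻¹] := by
  refine ⟨fun J => ?_⟩
  obtain ⟨a, ha⟩ := (inferInstance : IsPrincipalIdealRing (Polynomial K)).principal
    (J.comap (algebraMap (Polynomial K) K[T;T⁻¹]))
  refine ⟨algebraMap (Polynomial K) K[T;T⁻¹] a, ?_⟩
  have h1 : Ideal.map (algebraMap (Polynomial K) K[T;T⁻¹])
      (Ideal.comap (algebraMap (Polynomial K) K[T;T⁻¹]) J) = J :=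
    IsLocalization.map_comap (Submonoid.powers (Polynomial.X : Polynomial K)) K[T;T⁻¹] J
  rw [← h1, ha, Ideal.submodule_span_eq, Ideal.map_span, Set.image_singleton]

theorem laur_dom : IsDomain K[T;T⁻¹] := inferInstance

theorem laur_prime (f : K[T;T⁻¹]) (hf : f ≠ 0) : ∃ π : K[T;T⁻¹], Prime π ∧ ¬ π ∣ f := by
  obtain ⟨n, F, hF⟩ := f.exists_T_pow
  have hTu : (T (n : ℤ) : K[T;T⁻¹]) * T (-(n : ℤ)) = 1 := by
    rw [← T_add, add_neg_cancel, T_zero]
  have hF0 : F ≠ 0 := by
    rintro rfl
    rw [map_zero] at hF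
    apply hf
    have := congrArg (· * (T (-(n : ℤ)) : K[T;T⁻¹])) hF
    simp only [zero_mul, mul_assoc, hTu, mul_one] at this
    exact this.symm
  let H : Polynomial K := Polynomial.X * F + 1
  have hdeg : 0 < H.degree := by
    have h1 : (Polynomial.X * F).degree = 1 + F.degree := by
      rw [Polynomial.degree_mul, Polynomial.degree_X]
    have h2 : 0 < (Polynomial.X * F).degree := by
      rw [h1]
      have h3 : 0 ≤ F.degree := Polynomial.zero_le_degree_iff.2 hF0
      calc (0 : WithBot ℕ) < 1 := by norm_num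
        _ = 1 + 0 := by rw [add_zero]
        _ ≤ 1 + F.degree := by gcongr
    show 0 < (Polynomial.X * F + 1).degree
    rw [Polynomial.degree_add_eq_left_of_degree_lt]
    · exact h2
    · rw [Polynomial.degree_one]; exact h2
  have hH0 : H ≠ 0 := by
    intro h
    rw [h, Polynomial.degree_zero] at hdeg
    exact absurd hdeg (by simp)
  have hHu : ¬ IsUnit H := fun h => by
    rw [Polynomial.degree_eq_zero_of_isUnit h] at hdeg
    exact lt_irrefl _ hdeg
  obtain ⟨q, hq, r, hqr⟩ := WfDvdMonoid.exists_irreducible_factor hHu hH0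
  have hqp : Prime q := hq.prime
  have hnX : ∀ k : ℕ, ¬ q ∣ Polynomial.X ^ k := by
    intro k hk
    have h1 : q ∣ Polynomial.X := hqp.dvd_of_dvd_pow hk
    have h2 : q ∣ H - Polynomial.X * F := dvd_sub ⟨r, hqr⟩ (h1.mul_right F)
    have h3 : H - Polynomial.X * F = 1 := by simp [H]
    rw [h3] at h2
    exact hqp.not_unit (isUnit_of_dvd_one h2)
  have hIp : (Ideal.span {q}).IsPrime := (Ideal.span_singleton_prime hqp.ne_zero).2 hqp
  have hP := IsLocalization.isPrime_of_isPrime_disjoint
    (Submonoid.powers (Polynomial.X : Polynomial K)) K[T;T⁻¹] (Ideal.span {q}) hIp (by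
      rw [Set.disjoint_left]
      rintro x ⟨k, rfl⟩ hx
      exact hnX k (Ideal.mem_span_singleton.1 hx))
  rw [Ideal.map_span, Set.image_singleton] at hP
  have hne : algebraMap (Polynomial K) K[T;T⁻¹] q ≠ 0 := by
    intro h
    apply hqp.ne_zero
    exact Polynomial.toLaurent_injective (h.trans (map_zero _).symm)
  have hprime : Prime (algebraMap (Polynomial K) K[T;T⁻¹] q) :=
    (Ideal.span_singleton_prime hne).1 hP
  refine ⟨_, hprime, ?_⟩
  intro hdvd
  have h1 : algebraMap (Polynomial K) K[T;T⁻¹] q ∣ Polynomial.toLaurent F := by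
    rw [hF]; exact hdvd.mul_right _
  have h2 : algebraMap (Polynomial K) K[T;T⁻¹] q ∣ Polynomial.toLaurent H :=
    ⟨algebraMap (Polynomial K) K[T;T⁻¹] r, by
      rw [hqr, map_mul]; rfl⟩
  have h3 : Polynomial.toLaurent H - T 1 * Polynomial.toLaurent F = (1 : K[T;T⁻¹]) := by
    simp [H]
  have h4 : algebraMap (Polynomial K) K[T;T⁻¹] q ∣ 1 := by
    rw [← h3]
    exact dvd_sub h2 (h1.mul_left _)
  exact hprime.not_unit (isUnit_of_dvd_one h4)

end Pool.Agent.R672.RFV
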