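import Pool.Agent.R672.RFV.Simple2
import Pool.Agent.Helper294.HallC.SecModel

set_option autoImplicit false

namespace Pool.Agent.R672.RFV

open Pool.Agent.Helper294.HallC

section

variable {Q E : Type} [Group Q] [AddCommGroup E] [DistribMulAction Q E]

theorem noe_max (hN : Noe Q E) (P : AddSubgroup E → Prop) (hP : ∀ X, P X → Stb Q X)
    (hne : ∃ X, P X) : ∃ X, P X ∧ ∀ Y, P Y → X ≤ Y → Y = X := by
  have hwf : WellFoundedGT {X : AddSubgroup E // Stb Q X} := by
    rw [wellFoundedGT_iff_monotone_chain_condition]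
    intro a
    obtain ⟨n, hn⟩ := hN (fun i => (a i).1) (fun i j hij => a.monotone hij) (fun i => (a i).2)
    exact ⟨n, fun m hm => Subtype.ext (hn m hm).symm⟩
  obtain ⟨X₀, hX₀⟩ := hne
  obtain ⟨X, hX, hmax⟩ := hwf.wf.has_min {X : {X : AddSubgroup E // Stb Q X} | P X.1}
    ⟨⟨X₀, hP X₀ hX₀⟩, hX₀⟩
  refine ⟨X.1, hX, fun Y hY hle => ?_⟩
  by_contra hne
  exact hmax ⟨Y, hP Y hY⟩ hY (lt_of_le_of_ne hle (fun h => hne (congrArg Subtype.val h).symm))

theorem fit (hN : Noe Q E) (e₀ : E) (he₀ : e₀ ≠ 0)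
    (hmono : ∀ X : AddSubgroup E, Stb Q X → X ≠ ⊥ → e₀ ∈ X) (F : AddSubgroup E) (hF : Stb Q F)
    (φ : E →+ E) (hφF : ∀ x ∈ F, φ x ∈ F) (hφ : ∀ q : Q, ∀ x ∈ F, φ (q • x) = q • φ x)
    (hφ0 : φ e₀ = 0) : ∃ k, ∀ x ∈ F, φ^[k] x = 0 := by
  have hit : ∀ k, ∀ x ∈ F, φ^[k] x ∈ F := by
    intro k
    induction k with
    | zero => intro x hx; exact hx
    | succ k ih =>
      intro x hx
      rw [Function.iterate_succ_apply']
      exact hφF _ (ih x hx)
  have hitq : ∀ k, ∀ q : Q, ∀ x ∈ F, φ^[k] (q • x) = q • φ^[k] x := by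
    intro k
    induction k with
    | zero => intro q x _; rfl
    | succ k ih =>
      intro q x hx
      rw [Function.iterate_succ_apply', Function.iterate_succ_apply', ih q x hx,
        hφ q _ (hit k x hx)]
  let W : ℕ → AddSubgroup E := fun k =>
    { carrier := {x | x ∈ F ∧ φ^[k] x = 0}
      zero_mem' := ⟨zero_mem _, iterate_map_zero φ k⟩
      add_mem' := by
        rintro a b ⟨ha, ha'⟩ ⟨hb, hb'⟩
        exact ⟨add_mem ha hb, by rw [iterate_map_add, ha', hb', add_zero]⟩
      neg_mem' := by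
        rintro a ⟨ha, ha'⟩
        exact ⟨neg_mem ha, by rw [iterate_map_neg, ha', neg_zero]⟩ }
  have hW : ∀ k x, x ∈ W k ↔ x ∈ F ∧ φ^[k] x = 0 := fun k x => Iff.rfl
  obtain ⟨k, hk⟩ := hN W (monotone_nat_of_le_succ (fun k x hx => by
      refine ⟨hx.1, ?_⟩
      rw [Function.iterate_succ_apply', hx.2, map_zero])) (fun k q x hx => by
      refine ⟨hF q x hx.1, ?_⟩
      rw [hitq k q x hx.1, hx.2, smul_zero])
  refine ⟨k, ?_⟩
  let I : AddSubgroup E :=
    { carrier := {y | ∃ x ∈ F, φ^[k] x = y}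
      zero_mem' := ⟨0, zero_mem _, iterate_map_zero φ k⟩
      add_mem' := by
        rintro _ _ ⟨a, ha, rfl⟩ ⟨b, hb, rfl⟩
        exact ⟨a + b, add_mem ha hb, iterate_map_add φ k a b⟩
      neg_mem' := by
        rintro _ ⟨a, ha, rfl⟩
        exact ⟨-a, neg_mem ha, iterate_map_neg φ k a⟩ }
  have hI : Stb Q I := by
    rintro q _ ⟨x, hx, rfl⟩
    exact ⟨q • x, hF q x hx, hitq k q x hx⟩
  by_cases hI0 : I = ⊥
  · intro x hx
    rw [← AddSubgroup.mem_bot, ← hI0]
    exact ⟨x, hx, rfl⟩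
  · exfalso
    obtain ⟨x, hx, hxe⟩ := hmono I hI hI0
    have h1 : x ∈ W (k + 1) := ⟨hx, by rw [Function.iterate_succ_apply', hxe, hφ0]⟩
    rw [hk (k + 1) (Nat.le_succ k)] at h1
    exact he₀ (hxe.symm.trans h1.2)

theorem fit_finite (F : AddSubgroup E) (φ : E →+ E) (hφF : ∀ x ∈ F, φ x ∈ F) (k : ℕ)
    (hk : ∀ x ∈ F, φ^[k] x = 0) (hfin : {x : E | x ∈ F ∧ φ x = 0}.Finite) :
    (F : Set E).Finite := by
  have key : ∀ j : ℕ, {x : E | x ∈ F ∧ φ^[j] x = 0}.Finite := by
    intro j
    induction j with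
    | zero =>
      refine (Set.finite_singleton (0 : E)).subset ?_
      rintro x ⟨_, hx⟩
      exact hx
    | succ j ih =>
      refine Set.Finite.of_finite_fibers φ (ih.subset ?_) ?_
      · rintro _ ⟨x, ⟨hx, hx'⟩, rfl⟩
        exact ⟨hφF x hx, by rwa [Function.iterate_succ_apply] at hx'⟩
      · rintro _ ⟨x₀, ⟨hx₀, _⟩, rfl⟩
        refine (hfin.image (fun y => x₀ + y)).subset ?_
        rintro x ⟨⟨hx, _⟩, hx'⟩
        refine ⟨x - x₀, ⟨sub_mem hx hx₀, ?_⟩, by abel⟩
        rw [map_sub, sub_eq_zero]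
        exact hx'
  exact (key k).subset fun x hx => ⟨hx, hk x hx⟩

theorem finite_of_finite_quot (hN : Noe Q E) (m : ℕ) (hm : 0 < m) (hmE : ∀ x : E, m • x = 0)
    (K : Subgroup Q) (hK : Finite (Q ⧸ K)) (F : AddSubgroup E) (hF : Stb Q F)
    (hKF : ∀ g ∈ K, ∀ x ∈ F, g • x = x) : (F : Set E).Finite := by
  obtain ⟨F', ⟨hF'1, hF'2, hF'3⟩, hmax⟩ := noe_max hN
    (fun X => Stb Q X ∧ X ≤ F ∧ (X : Set E).Finite) (fun X h => h.1)
    ⟨⊥, by
      intro g x hx
      rw [AddSubgroup.mem_bot] at hx ⊢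
      rw [hx, smul_zero], bot_le, by simp⟩
  have hFF' : F ≤ F' := by
    intro x hx
    have horb : {a : E | ∃ q : Q, a = q • x}.Finite := by
      refine (Set.finite_range (fun c : Q ⧸ K => c.out • x)).subset ?_
      rintro _ ⟨q, rfl⟩
      refine ⟨(q : Q ⧸ K), ?_⟩
      have h1 : (((q : Q ⧸ K).out : Q))⁻¹ * q ∈ K := by
        rw [← QuotientGroup.eq, QuotientGroup.out_eq']
      have h2 := hKF _ h1 x hx
      show ((q : Q ⧸ K).out : Q) • x = q • x
      rw [← h2, ← mul_smul, mul_inv_cancel_left, h2]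
    let S : Set E := (F' : Set E) ∪ {a : E | ∃ q : Q, a = q • x}
    have hSfin : S.Finite := hF'3.union horb
    have hcl : (AddSubgroup.closure S : Set E).Finite :=
      finite_closure m hm S hSfin fun x _ => hmE x
    have hst : Stb Q (AddSubgroup.closure S) := by
      intro g y hy
      induction hy using AddSubgroup.closure_induction with
      | mem y hy =>
        rcases hy with hy | ⟨q, rfl⟩
        · exact AddSubgroup.subset_closure (Or.inl (hF'1 g y hy))
        · exact AddSubgroup.subset_closure (Or.inr ⟨g * q, by rw [mul_smul]⟩)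
      | zero => rw [smul_zero]; exact zero_mem _
      | add x y _ _ hx hy => rw [smul_add]; exact add_mem hx hy
      | neg x _ hx => rw [smul_neg]; exact neg_mem hx
    have hle : AddSubgroup.closure S ≤ F := by
      rw [AddSubgroup.closure_le]
      rintro y (hy | ⟨q, rfl⟩)
      · exact hF'2 hy
      · exact hF q x hx
    have h1 := hmax _ ⟨hst, hle, hcl⟩ (fun y hy => AddSubgroup.subset_closure (Or.inl hy))
    rw [← h1]
    exact AddSubgroup.subset_closure (Or.inr ⟨1, (one_smul _ _).symm⟩)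
  exact hF'3.subset hFF'

end

/-- a Noetherian module over a finitely generated nilpotent group with a smallest nonzero submodule
is finite. -/
theorem mono_finite {Q E : Type} [Group Q] [AddCommGroup E] [DistribMulAction Q E]
    [Group.FG Q] [Group.IsNilpotent Q] (hN : Noe Q E) (e₀ : E) (he₀ : e₀ ≠ 0)
    (hmono : ∀ X : AddSubgroup E, Stb Q X → X ≠ ⊥ → e₀ ∈ X) : Finite E := by
  -- the monolith is finite
  let M : AddSubgroup E := AddSubgroup.closure {x : E | ∃ g : Q, x = g • e₀}
  have hMst : Stb Q M := sec_model_stb (Γ := Q) e₀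
  have he₀M : ∀ g : Q, g • e₀ ∈ M := fun g => AddSubgroup.subset_closure ⟨g, rfl⟩
  have hMfin : Finite ↥M := by
    letI := sec_model_r M hMst
    have hS : Smp Q ↥M := by
      intro X hX
      by_cases h : X.map M.subtype = ⊥
      · left
        exact (AddSubgroup.map_eq_bot_iff_of_injective X M.subtype_injective).1 h
      · right
        have hst : Stb Q (X.map M.subtype) := by
          rintro g _ ⟨x, hx, rfl⟩
          exact ⟨g • x, hX g x hx, rfl⟩
        have h1 := hmono _ hst h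
        rw [eq_top_iff]
        rintro ⟨x, hx⟩ _
        have h2 : M ≤ X.map M.subtype := by
          show AddSubgroup.closure _ ≤ _
          rw [AddSubgroup.closure_le]
          rintro _ ⟨g, rfl⟩
          exact hst g _ h1
        obtain ⟨y, hy, hyx⟩ := h2 hx
        have : y = ⟨x, hx⟩ := Subtype.ext hyx
        rwa [← this]
    exact hS.finite
  -- the exponent
  obtain ⟨m, hm, hme⟩ : ∃ m : ℕ, 0 < m ∧ m • e₀ = 0 := by
    have he : e₀ ∈ M := by simpa using he₀M 1
    refine ⟨Nat.card ↥M, Nat.card_pos, ?_⟩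
    have h1 : Nat.card ↥M • (⟨e₀, he⟩ : ↥M) = 0 := card_nsmul_eq_zero'
    exact congrArg Subtype.val h1
  obtain ⟨e, he, heE⟩ : ∃ e : ℕ, 0 < e ∧ ∀ x : E, e • x = 0 := by
    obtain ⟨k, hk⟩ := fit hN e₀ he₀ hmono ⊤ (fun _ _ _ => trivial) (nsmulAddMonoidHom m)
      (fun _ _ => trivial)
      (fun q x _ => ((DistribSMul.toAddMonoidHom E q).map_nsmul m x).symm) hme
    refine ⟨m ^ k, Nat.pow_pos hm, fun x => ?_⟩
    have h1 : ∀ k : ℕ, ∀ x : E, (nsmulAddMonoidHom m : E →+ E)^[k] x = m ^ k • x := by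
      intro k
      induction k with
      | zero => intro x; simp
      | succ k ih =>
        intro x
        rw [Function.iterate_succ_apply', ih, pow_succ', mul_smul]
        rfl
    rw [← h1]
    exact hk x trivial
  have hwf := (MaxC.wf (Pool.Agent.H53R2.nil_maxC Q)).wf
  have key : ∀ K : Subgroup Q, ∀ F : AddSubgroup E, Stb Q F → (∀ g ∈ K, ∀ x ∈ F, g • x = x) →
      (F : Set E).Finite := by
    intro K
    induction K using hwf.induction with
    | _ K ih =>
    intro F hF hKF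
    let K' : Subgroup Q :=
      { carrier := {g | ∀ x ∈ F, g • x = x}
        one_mem' := fun x _ => one_smul Q x
        mul_mem' := by
          intro a b ha hb x hx
          rw [mul_smul, hb x hx, ha x hx]
        inv_mem' := by
          intro a ha x hx
          rw [inv_smul_eq_iff, ha x hx] }
    have hK' : ∀ g, g ∈ K' ↔ ∀ x ∈ F, g • x = x := fun g => Iff.rfl
    have hKK' : K ≤ K' := hKF
    rcases eq_or_lt_of_le hKK' with hKe | hKlt
    swap
    · exact ih K' hKlt F hF (fun g hg => hg)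
    have hKn : K.Normal := by
      rw [hKe]
      refine ⟨fun g hg q x hx => ?_⟩
      rw [mul_smul, mul_smul, hg _ (hF q⁻¹ x hx), smul_inv_smul]
    have hfgq : Group.FG (Q ⧸ K) := QuotientGroup.fg _
    by_cases hfin : Finite (Q ⧸ K)
    · exact finite_of_finite_quot hN e he heE K hfin F hF hKF
    -- a central element of infinite order
    obtain ⟨zb, hzb, hzo⟩ : ∃ zb ∈ Subgroup.center (Q ⧸ K), ¬ IsOfFinOrder zb := by
      by_contra hcon
      push Not at hcon
      apply hfin
      have hcfg : Group.FG ↥(Subgroup.center (Q ⧸ K)) :=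
        (Group.fg_iff_subgroup_fg _).mpr Helper111.EN.center_fg
      have hcfin : Finite ↥(Subgroup.center (Q ⧸ K)) := by
        apply Helper111.EN.finite_of_fg_nilpotent
        intro z
        obtain ⟨n, hn, h1⟩ := isOfFinOrder_iff_pow_eq_one.1 (hcon z z.2)
        rw [isOfFinOrder_iff_pow_eq_one]
        exact ⟨n, hn, Subtype.ext h1⟩
      apply H53R2.fin_nil (Q ⧸ K) (Nat.card ↥(Subgroup.center (Q ⧸ K))) Nat.card_pos
      intro z hz
      have h1 : (⟨z, hz⟩ : ↥(Subgroup.center (Q ⧸ K))) ^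
        Nat.card ↥(Subgroup.center (Q ⧸ K)) = 1 := pow_card_eq_one'
      exact congrArg Subtype.val h1
    obtain ⟨z, rfl⟩ := QuotientGroup.mk'_surjective K zb
    -- a power of `z` fixes `e₀`
    obtain ⟨n, hn, hne⟩ : ∃ n : ℕ, 0 < n ∧ z ^ n • e₀ = e₀ := by
      obtain ⟨i, j, hij, h1⟩ := Finite.exists_ne_map_eq_of_infinite
        (fun k : ℕ => (⟨z ^ k • e₀, he₀M _⟩ : ↥M))
      have h2 : z ^ i • e₀ = z ^ j • e₀ := congrArg Subtype.val h1
      have h3 : ∀ i j : ℕ, i < j → z ^ i • e₀ = z ^ j • e₀ →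
          ∃ n : ℕ, 0 < n ∧ z ^ n • e₀ = e₀ := by
        intro i j hij h
        refine ⟨j - i, by omega, ?_⟩
        have h4 : z ^ j = z ^ i * z ^ (j - i) := by rw [← pow_add]; congr 1; omega
        rw [h4, mul_smul] at h
        exact (smul_left_cancel _ h).symm
      rcases lt_or_gt_of_ne hij with h | h
      · exact h3 i j h h2
      · exact h3 j i h h2.symm
    have hznK : z ^ n ∉ K := by
      intro h
      apply hzo
      rw [isOfFinOrder_iff_pow_eq_one]
      refine ⟨n, hn, ?_⟩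
      rw [← map_pow]
      exact (QuotientGroup.eq_one_iff _).2 h
    have hcomm : ∀ q : Q, ∀ x ∈ F, z ^ n • q • x = q • z ^ n • x := by
      intro q x hx
      have h1 := Subgroup.mem_center_iff.1 ((Subgroup.center (Q ⧸ K)).pow_mem hzb n)
        (QuotientGroup.mk' K q)
      rw [← map_pow, ← map_mul, ← map_mul] at h1
      have h2 : (q * z ^ n)⁻¹ * (z ^ n * q) ∈ K := QuotientGroup.eq.1 h1
      have h3 := hKF _ h2 x hx
      rw [← mul_smul, ← mul_smul]
      conv_rhs => rw [← h3]
      rw [← mul_smul, mul_inv_cancel_left]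
    let φ : E →+ E := DistribSMul.toAddMonoidHom E (z ^ n) - AddMonoidHom.id E
    have hφ : ∀ x, φ x = z ^ n • x - x := fun x => rfl
    have hφF : ∀ x ∈ F, φ x ∈ F := fun x hx => sub_mem (hF _ x hx) hx
    obtain ⟨k, hk⟩ := fit hN e₀ he₀ hmono F hF φ hφF (by
      intro q x hx
      rw [hφ, hφ, hcomm q x hx, smul_sub]) (by rw [hφ, hne, sub_self])
    apply fit_finite F φ hφF k hk
    let F₁ : AddSubgroup E :=
      { carrier := {x | x ∈ F ∧ z ^ n • x = x}
        zero_mem' := ⟨zero_mem _, smul_zero _⟩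
        add_mem' := by
          rintro a b ⟨ha, ha'⟩ ⟨hb, hb'⟩
          exact ⟨add_mem ha hb, by rw [smul_add, ha', hb']⟩
        neg_mem' := by
          rintro a ⟨ha, ha'⟩
          exact ⟨neg_mem ha, by rw [smul_neg, ha']⟩ }
    have hlt : K < K ⊔ Subgroup.zpowers (z ^ n) := by
      refine lt_of_le_of_ne le_sup_left (fun h => hznK ?_)
      rw [h]
      exact (le_sup_right : _ ≤ K ⊔ _) (Subgroup.mem_zpowers _)
    have h1 := ih (K ⊔ Subgroup.zpowers (z ^ n)) hlt F₁ (by
        rintro q x ⟨hx, hx'⟩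
        exact ⟨hF q x hx, by rw [hcomm q x hx, hx']⟩) (by
        let K₁ : Subgroup Q :=
          { carrier := {g | ∀ x ∈ F₁, g • x = x}
            one_mem' := fun x _ => one_smul Q x
            mul_mem' := by
              intro a b ha hb x hx
              rw [mul_smul, hb x hx, ha x hx]
            inv_mem' := by
              intro a ha x hx
              rw [inv_smul_eq_iff, ha x hx] }
        have hle : K ⊔ Subgroup.zpowers (z ^ n) ≤ K₁ := by
          refine sup_le (fun g hg x hx => hKF g hg x hx.1) ?_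
          rw [Subgroup.zpowers_le]
          exact fun x hx => hx.2
        exact hle)
    refine h1.subset ?_
    rintro x ⟨hx, hx'⟩
    rw [hφ, sub_eq_zero] at hx'
    exact ⟨hx, hx'⟩
  have h := key ⊥ ⊤ (fun _ _ _ => trivial) (fun g hg x _ => by
    rw [Subgroup.mem_bot.1 hg, one_smul])
  rw [AddSubgroup.coe_top] at h
  exact Set.finite_univ_iff.1 h

end Pool.Agent.R672.RFV
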