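import Pool.Agent.R672.RFV.GdMain
import Pool.Agent.R672.RFV.Laur
import Pool.Agent.H53R2.FinNil

set_option autoImplicit false

namespace Pool.Agent.R672.RFV

open Pool.Agent.Helper294.HallC
open LaurentPolynomial

/-- simple module -/
def Smp (Γ E : Type) [Group Γ] [AddCommGroup E] [DistribMulAction Γ E] : Prop :=
  ∀ X : AddSubgroup E, Stb Γ X → X = ⊥ ∨ X = ⊤

section

variable {Γ E : Type} [Group Γ] [AddCommGroup E] [DistribMulAction Γ E]

theorem Smp.fgm (h : Smp Γ E) [Nontrivial E] : FGM Γ E := by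
  obtain ⟨e, he⟩ := exists_ne (0 : E)
  refine ⟨{e}, ?_⟩
  have hst : Stb Γ (AddSubgroup.closure {a : E | ∃ g : Γ, ∃ s ∈ ({e} : Finset E), a = g • s}) := by
    intro g x hx
    induction hx using AddSubgroup.closure_induction with
    | mem x hx =>
      obtain ⟨h, s, hs, rfl⟩ := hx
      exact AddSubgroup.subset_closure ⟨g * h, s, hs, by rw [mul_smul]⟩
    | zero => rw [smul_zero]; exact zero_mem _
    | add x y _ _ hx hy => rw [smul_add]; exact add_mem hx hy
    | neg x _ hx => rw [smul_neg]; exact neg_mem hx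
  rcases h _ hst with h1 | h1
  · exfalso
    apply he
    rw [← AddSubgroup.mem_bot, ← h1]
    exact AddSubgroup.subset_closure ⟨1, e, by simp, (one_smul _ _).symm⟩
  · exact h1

theorem Smp.dich (h : Smp Γ E) (θ : E →+ E) (hθ : ∀ (g : Γ) x, θ (g • x) = g • θ x) :
    (∀ x, θ x = 0) ∨ Function.Bijective θ := by
  by_cases h0 : ∀ x, θ x = 0
  · exact Or.inl h0
  right
  push Not at h0
  obtain ⟨x₀, hx₀⟩ := h0
  constructor
  · rw [injective_iff_map_eq_zero]
    have hst : Stb Γ θ.ker := by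
      intro g x hx
      rw [AddMonoidHom.mem_ker] at hx ⊢
      rw [hθ, hx, smul_zero]
    rcases h _ hst with h1 | h1
    · intro x hx
      rw [← AddSubgroup.mem_bot, ← h1]
      exact hx
    · exfalso
      apply hx₀
      rw [← AddMonoidHom.mem_ker, h1]
      trivial
  · have hst : Stb Γ θ.range := by
      rintro g _ ⟨x, rfl⟩
      exact ⟨g • x, hθ g x⟩
    rcases h _ hst with h1 | h1
    · exfalso
      apply hx₀
      rw [← AddSubgroup.mem_bot, ← h1]
      exact ⟨x₀, rfl⟩
    · exact AddMonoidHom.range_eq_top.1 h1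

theorem no_field {B : Type} [CommRing B] [IsDomain B] [IsPrincipalIdealRing B] [Module B E]
    [Nontrivial E] (C : Subgroup Γ) [C.Normal] (hpc : PC (Γ ⧸ C))
    (hcomm : ∀ (g : Γ) (b : B) (a : E), g • b • a = b • g • a)
    (hCB : ∀ X : AddSubgroup E, (∀ c ∈ C, ∀ x ∈ X, c • x ∈ X) → ∀ b : B, ∀ x ∈ X, b • x ∈ X)
    (hBC : ∀ c ∈ C, ∀ a : E, ∃ b : B, c • a = b • a) (hA : FGM Γ E)
    (hprime : ∀ f : B, f ≠ 0 → ∃ π : B, Prime π ∧ ¬ π ∣ f)
    (hbij : ∀ b : B, b ≠ 0 → Function.Bijective (fun x : E => b • x)) : False := by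
  obtain ⟨f, hf0, hf⟩ := gd_main C hpc hcomm hCB hBC hA
  obtain ⟨π, hπ, hπf⟩ := hprime f hf0
  have hgd := hf π hπ hπf
  obtain ⟨y, hy⟩ := exists_ne (0 : E)
  obtain ⟨c, hc, h1⟩ := hgd.2 y trivial (fun n => by
    obtain ⟨y', hy'⟩ := (hbij (π ^ n) (pow_ne_zero n hπ.ne_zero)).2 y
    refine ⟨y', trivial, ?_⟩
    rw [AddSubgroup.mem_bot, ← hy']
    exact sub_self _)
  rw [AddSubgroup.mem_bot] at h1
  apply hy
  apply (hbij c hc).1
  show c • y = c • (0 : E)
  rw [h1, smul_zero]

theorem pc_nil (H : Type) [Group H] [Group.FG H] [Group.IsNilpotent H] : PC H :=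
  ⟨(inferInstance : Group.IsSolvable H), Pool.Agent.H53R2.nil_maxC H⟩

theorem int_prime (f : ℤ) (hf : f ≠ 0) : ∃ π : ℤ, Prime π ∧ ¬ π ∣ f := by
  obtain ⟨p, hp, hpp⟩ := Nat.exists_infinite_primes (f.natAbs + 1)
  refine ⟨p, Nat.prime_iff_prime_int.1 hpp, ?_⟩
  intro h
  have h1 : p ∣ f.natAbs := Int.natCast_dvd.1 h
  have h2 := Nat.le_of_dvd (Int.natAbs_pos.2 hf) h1
  omega

theorem smul_int (g : Γ) (n : ℤ) (a : E) : g • n • a = n • g • a :=
  (DistribSMul.toAddMonoidHom E g).map_zsmul n a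

/-- the additive map given by an integer -/
theorem Smp.exists_prime (h : Smp Γ E) [Nontrivial E] [Group.FG Γ] [Group.IsNilpotent Γ] :
    ∃ p : ℕ, p.Prime ∧ ∀ x : E, p • x = 0 := by
  by_contra hcon
  push Not at hcon
  have hd : ∀ n : ℕ, (∀ x : E, n • x = 0) ∨ Function.Bijective (fun x : E => n • x) := by
    intro n
    exact h.dich (nsmulAddMonoidHom n) (fun g x => ((DistribSMul.toAddMonoidHom E g).map_nsmul n x).symm)
  have hnat : ∀ n : ℕ, 0 < n → Function.Bijective (fun x : E => n • x) := by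
    intro n
    induction n using Nat.strong_induction_on with
    | _ n ih =>
      intro hn
      rcases hd n with h0 | h1
      swap
      · exact h1
      exfalso
      by_cases h1 : n = 1
      · obtain ⟨y, hy⟩ := exists_ne (0 : E)
        apply hy
        have := h0 y
        rwa [h1, one_smul] at this
      · obtain ⟨p, hp, m, rfl⟩ := Nat.exists_prime_and_dvd h1
        have hm : 0 < m := Nat.pos_of_mul_pos_left hn |> fun _ => by
          rcases Nat.eq_zero_or_pos m with rfl | hm
          · simp at hn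
          · exact hm
        have hlt : m < p * m := by
          have := hp.two_le
          nlinarith
        obtain ⟨x, hx⟩ := hcon p hp
        obtain ⟨y, rfl⟩ := (ih m hlt hm).2 x
        apply hx
        show p • m • y = 0
        rw [← mul_smul]
        exact h0 y
  have hint : ∀ n : ℤ, n ≠ 0 → Function.Bijective (fun x : E => n • x) := by
    intro n hn
    have h1 := hnat n.natAbs (Int.natAbs_pos.2 hn)
    rcases Int.natAbs_eq n with h2 | h2
    · have h3 : (fun x : E => n • x) = fun x : E => n.natAbs • x := by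
        funext x
        rw [← natCast_zsmul, ← h2]
      rw [h3]; exact h1
    · have h3 : (fun x : E => n • x) = (fun x : E => -x) ∘ fun x : E => n.natAbs • x := by
        funext x
        show n • x = -(n.natAbs • x)
        rw [← natCast_zsmul, ← neg_smul, ← h2]
      rw [h3]
      exact (Equiv.neg E).bijective.comp h1
  refine no_field (B := ℤ) (Γ := Γ) (⊥ : Subgroup Γ) (pc_nil _) smul_int
    (fun X _ b x hx => zsmul_mem hx b) (fun c hc a => ⟨1, ?_⟩) h.fgm int_prime hint
  rw [Subgroup.mem_bot.1 hc, one_smul, one_smul]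

end

end Pool.Agent.R672.RFV
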