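import Pool.Agent.R672.RFV.Simple

set_option autoImplicit false

namespace Pool.Agent.R672.RFV

open Pool.Agent.Helper294.HallC
open LaurentPolynomial

section

variable {Γ E : Type} [Group Γ] [AddCommGroup E] [DistribMulAction Γ E]

/-- the Laurent polynomial ring acting through `z` -/
noncomputable def lact (E : Type) [AddCommGroup E] [DistribMulAction Γ E] (p : ℕ)
    [Module (ZMod p) E] (z : Γ) :
    (ZMod p)[T;T⁻¹] →ₐ[ZMod p] Module.End (ZMod p) E :=
  AddMonoidAlgebra.lift (ZMod p) (Module.End (ZMod p) E) ℤ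
    { toFun := fun k => (DistribSMul.toAddMonoidHom E (z ^ k.toAdd)).toZModLinearMap p
      map_one' := by
        ext x
        show z ^ (0 : ℤ) • x = x
        rw [zpow_zero, one_smul]
      map_mul' := by
        intro a b
        ext x
        show z ^ (a.toAdd + b.toAdd) • x = z ^ a.toAdd • z ^ b.toAdd • x
        rw [zpow_add, mul_smul] }

/-- the additive map given by a Laurent polynomial in `z` -/
noncomputable def lh (E : Type) [AddCommGroup E] [DistribMulAction Γ E] (p : ℕ)
    [Module (ZMod p) E] (z : Γ) (b : (ZMod p)[T;T⁻¹]) : E →+ E :=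
  (lact E p z b).toAddMonoidHom

theorem lh_T (p : ℕ) [Module (ZMod p) E] (z : Γ) (k : ℤ) (x : E) :
    lh E p z (T k) x = z ^ k • x := by
  show lact E p z (T k) x = z ^ k • x
  unfold lact
  have : (T k : (ZMod p)[T;T⁻¹]) = AddMonoidAlgebra.single k 1 := rfl
  rw [this, AddMonoidAlgebra.lift_single, one_smul]
  rfl

theorem lh_C (p : ℕ) [Module (ZMod p) E] (z : Γ) (c : ZMod p) (x : E) :
    lh E p z (C c) x = c • x := by
  show lact E p z (C c) x = c • x
  have : (C c : (ZMod p)[T;T⁻¹]) = algebraMap (ZMod p) _ c := rfl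
  rw [this, AlgHom.commutes]
  rfl

theorem lh_mul (p : ℕ) [Module (ZMod p) E] (z : Γ) (a b : (ZMod p)[T;T⁻¹]) (x : E) :
    lh E p z (a * b) x = lh E p z a (lh E p z b x) := by
  show lact E p z (a * b) x = lact E p z a (lact E p z b x)
  rw [map_mul]
  rfl

theorem lh_add (p : ℕ) [Module (ZMod p) E] (z : Γ) (a b : (ZMod p)[T;T⁻¹]) (x : E) :
    lh E p z (a + b) x = lh E p z a x + lh E p z b x := by
  show lact E p z (a + b) x = lact E p z a x + lact E p z b x
  rw [map_add]
  rfl

theorem lh_sub (p : ℕ) [Module (ZMod p) E] (z : Γ) (a b : (ZMod p)[T;T⁻¹]) (x : E) :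
    lh E p z (a - b) x = lh E p z a x - lh E p z b x := by
  show lact E p z (a - b) x = lact E p z a x - lact E p z b x
  rw [map_sub]
  rfl

theorem lh_one (p : ℕ) [Module (ZMod p) E] (z : Γ) (x : E) :
    lh E p z 1 x = x := by
  show lact E p z 1 x = x
  rw [map_one]
  rfl

theorem lh_zero (p : ℕ) [Module (ZMod p) E] (z : Γ) (x : E) :
    lh E p z 0 x = 0 := by
  show lact E p z 0 x = 0
  rw [map_zero]
  rfl

theorem lh_CT (p : ℕ) [Module (ZMod p) E] (z : Γ) (k : ℤ) (c : ZMod p) (x : E) :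
    lh E p z (C c * T k) x = c • z ^ k • x := by
  rw [lh_mul, lh_T, lh_C]

theorem lh_comm (p : ℕ) [Module (ZMod p) E] (z : Γ) (hz : z ∈ Subgroup.center Γ) (g : Γ)
    (b : (ZMod p)[T;T⁻¹]) (x : E) : lh E p z b (g • x) = g • lh E p z b x := by
  have hzc : ∀ (k : ℤ), z ^ k * g = g * z ^ k := by
    intro k
    exact ((Subgroup.mem_center_iff.1 ((Subgroup.center Γ).zpow_mem hz k)) g).symm
  induction b using LaurentPolynomial.induction_on' with
  | add a b ha hb =>
    rw [lh_add, lh_add, smul_add, ha, hb]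
  | C_mul_T k c =>
    rw [lh_CT, lh_CT, ← mul_smul, hzc, mul_smul]
    exact (((DistribSMul.toAddMonoidHom E g).toZModLinearMap p).map_smul c (z ^ k • x)).symm

/-- the module structure given by `z` -/
@[reducible] noncomputable def lmod (E : Type) [AddCommGroup E] [DistribMulAction Γ E] (p : ℕ)
    [Module (ZMod p) E] (z : Γ) : Module (ZMod p)[T;T⁻¹] E where
  smul b x := lh E p z b x
  one_smul x := lh_one p z x
  mul_smul a b x := lh_mul p z a b x
  smul_zero b := map_zero _
  smul_add b x y := map_add _ x y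
  add_smul a b x := lh_add p z a b x
  zero_smul x := lh_zero p z x

theorem Smp.lzero (h : Smp Γ E) [Nontrivial E] [Group.FG Γ] [Group.IsNilpotent Γ] (z : Γ)
    (hz : z ∈ Subgroup.center Γ) (p : ℕ) [Fact p.Prime] [Module (ZMod p) E] :
    ∃ b : (ZMod p)[T;T⁻¹], b ≠ 0 ∧ ∀ x : E, lh E p z b x = 0 := by
  by_contra hcon
  push Not at hcon
  letI mB : Module (ZMod p)[T;T⁻¹] E := lmod E p z
  have hsm : ∀ (b : (ZMod p)[T;T⁻¹]) (x : E), b • x = lh E p z b x := fun b x => rfl
  haveI := laur_pid (ZMod p)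
  have hnorm : (Subgroup.zpowers z).Normal := by
    refine ⟨?_⟩
    rintro _ ⟨k, rfl⟩ g
    refine ⟨k, ?_⟩
    have h1 : g * z ^ k = z ^ k * g :=
      (Subgroup.mem_center_iff.1 ((Subgroup.center Γ).zpow_mem hz k)) g
    show z ^ k = g * z ^ k * g⁻¹
    rw [h1, mul_inv_cancel_right]
  refine no_field (B := (ZMod p)[T;T⁻¹]) (Γ := Γ) (Subgroup.zpowers z) (pc_nil _) ?_ ?_ ?_ h.fgm
    (laur_prime (ZMod p)) ?_
  · intro g b x
    rw [hsm, hsm, lh_comm p z hz]
  · intro X hX b x hx
    rw [hsm]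
    induction b using LaurentPolynomial.induction_on' with
    | add a b ha hb =>
      rw [lh_add]
      exact add_mem ha hb
    | C_mul_T k c =>
      rw [lh_CT]
      exact ZMod.smul_mem (hX _ ⟨k, rfl⟩ x hx) c
  · rintro _ ⟨k, rfl⟩ a
    exact ⟨T k, (lh_T p z k a).symm⟩
  · intro b hb
    rcases h.dich (lh E p z b) (fun g x => lh_comm p z hz g b x) with h1 | h1
    · obtain ⟨x, hx⟩ := hcon b hb
      exact absurd (h1 x) hx
    · exact h1

theorem Smp.central (h : Smp Γ E) [Nontrivial E] [Group.FG Γ] [Group.IsNilpotent Γ] (z : Γ)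
    (hz : z ∈ Subgroup.center Γ) : ∃ n : ℕ, 0 < n ∧ ∀ x : E, z ^ n • x = x := by
  obtain ⟨p, hp, hpE⟩ := h.exists_prime
  haveI : Fact p.Prime := ⟨hp⟩
  letI : Module (ZMod p) E := AddCommGroup.zmodModule hpE
  obtain ⟨b, hb0, hb⟩ := h.lzero z hz p
  obtain ⟨n, F, hF⟩ := b.exists_T_pow
  have hTu : (T (n : ℤ) : (ZMod p)[T;T⁻¹]) * T (-(n : ℤ)) = 1 := by
    rw [← T_add, add_neg_cancel, T_zero]
  have hF0 : F ≠ 0 := by
    rintro rfl
    rw [map_zero] at hF
    apply hb0
    have := congrArg (· * (T (-(n : ℤ)) : (ZMod p)[T;T⁻¹])) hF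
    simp only [zero_mul, mul_assoc, hTu, mul_one] at this
    exact this.symm
  have hFz : ∀ x : E, lh E p z (Polynomial.toLaurent F) x = 0 := by
    intro x
    rw [hF, lh_mul, hb]
  haveI : Module.Finite (ZMod p) (AdjoinRoot F) := (AdjoinRoot.powerBasis hF0).finite
  haveI : Finite (AdjoinRoot F) := Module.finite_of_finite (ZMod p)
  obtain ⟨i, j, hij, hroot⟩ := Finite.exists_ne_map_eq_of_infinite
    (fun k : ℕ => (AdjoinRoot.root F) ^ k)
  have key : ∀ i j : ℕ, i < j → (AdjoinRoot.root F) ^ i = (AdjoinRoot.root F) ^ j →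
      ∃ n : ℕ, 0 < n ∧ ∀ x : E, z ^ n • x = x := by
    intro i j hij hroot
    have h1 : AdjoinRoot.mk F (Polynomial.X ^ j - Polynomial.X ^ i) = 0 := by
      rw [map_sub, map_pow, map_pow, AdjoinRoot.mk_X, hroot, sub_self]
    rw [AdjoinRoot.mk_eq_zero] at h1
    obtain ⟨G, hG⟩ := h1
    have h2 : (T (j : ℤ) - T (i : ℤ) : (ZMod p)[T;T⁻¹]) =
        Polynomial.toLaurent F * Polynomial.toLaurent G := by
      rw [← map_mul, ← hG, map_sub, Polynomial.toLaurent_X_pow, Polynomial.toLaurent_X_pow]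
    refine ⟨j - i, by omega, fun x => ?_⟩
    have h3 : lh E p z (T (j : ℤ) - T (i : ℤ)) (z ^ (-(i : ℤ)) • x) = 0 := by
      rw [h2, mul_comm, lh_mul, hFz, map_zero]
    rw [lh_sub, lh_T, lh_T, ← mul_smul, ← mul_smul, ← zpow_add,
      ← zpow_add, add_neg_cancel, zpow_zero, one_smul, sub_eq_zero] at h3
    have h4 : z ^ ((j : ℤ) + -(i : ℤ)) = z ^ (j - i) := by
      rw [← zpow_natCast]
      congr 1
      omega
    rwa [h4] at h3
  rcases lt_or_gt_of_ne hij with h1 | h1
  · exact key i j h1 hroot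
  · exact key j i h1 hroot.symm

end

/-- finite generation from finitely many generators with an exponent -/
theorem finite_closure {E : Type} [AddCommGroup E] (m : ℕ) (hm : 0 < m) (S : Set E) (hS : S.Finite)
    (hE : ∀ x ∈ AddSubgroup.closure S, m • x = 0) : (AddSubgroup.closure S : Set E).Finite := by
  have hfg : AddGroup.FG ↥(AddSubgroup.closure S) := by
    rw [AddGroup.fg_iff_addSubgroup_fg]
    exact ⟨hS.toFinset, by rw [Set.Finite.coe_toFinset]⟩
  haveI : Module.Finite ℤ ↥(AddSubgroup.closure S) := Module.Finite.iff_addGroup_fg.2 hfg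
  have : Finite ↥(AddSubgroup.closure S) := by
    apply Module.finite_of_fg_torsion
    intro x
    refine ⟨⟨(m : ℤ), mem_nonZeroDivisors_of_ne_zero (by exact_mod_cast hm.ne')⟩, ?_⟩
    apply Subtype.ext
    show (m : ℤ) • (x : E) = 0
    rw [natCast_zsmul]
    exact hE x x.2
  exact Set.toFinite _

/-- **P. Hall: simple modules over finitely generated nilpotent groups are finite.** -/
theorem Smp.finite {Γ E : Type} [Group Γ] [AddCommGroup E] [DistribMulAction Γ E]
    [Group.FG Γ] [Group.IsNilpotent Γ] (h : Smp Γ E) : Finite E := by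
  classical
  rcases subsingleton_or_nontrivial E with hE | hE
  · exact Finite.of_subsingleton
  let ρ : Γ →* Equiv.Perm E := MulAction.toPermHom Γ E
  let H : Subgroup (Equiv.Perm E) := ρ.range
  letI : DistribMulAction ↥H E :=
    { smul := fun h x => (h : Equiv.Perm E) x
      one_smul := fun x => rfl
      mul_smul := fun g h x => rfl
      smul_zero := by
        rintro ⟨_, g, rfl⟩
        exact smul_zero g
      smul_add := by
        rintro ⟨_, g, rfl⟩ x y
        exact smul_add g x y }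
  have hHfg : Group.FG ↥H := Group.fg_of_surjective ρ.rangeRestrict_surjective
  have hHnil : Group.IsNilpotent ↥H :=
    Group.nilpotent_of_surjective ρ.rangeRestrict ρ.rangeRestrict_surjective
  have hsm : ∀ (g : Γ) (x : E), (ρ.rangeRestrict g) • x = g • x := fun g x => rfl
  have hH : Smp ↥H E := by
    intro X hX
    apply h X
    intro g x hx
    exact hX (ρ.rangeRestrict g) x hx
  have htors : ∀ z ∈ Subgroup.center ↥H, IsOfFinOrder z := by
    intro z hz
    obtain ⟨n, hn, h1⟩ := hH.central z hz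
    rw [isOfFinOrder_iff_pow_eq_one]
    refine ⟨n, hn, ?_⟩
    apply Subtype.ext
    ext x
    exact h1 x
  haveI hcfg : Group.FG ↥(Subgroup.center ↥H) :=
    (Group.fg_iff_subgroup_fg _).mpr Helper111.EN.center_fg
  haveI hcfin : Finite ↥(Subgroup.center ↥H) := by
    apply Helper111.EN.finite_of_fg_nilpotent
    intro z
    obtain ⟨n, hn, h1⟩ := isOfFinOrder_iff_pow_eq_one.1 (htors z z.2)
    rw [isOfFinOrder_iff_pow_eq_one]
    exact ⟨n, hn, Subtype.ext h1⟩
  haveI hHfin : Finite ↥H := by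
    apply H53R2.fin_nil ↥H (Nat.card ↥(Subgroup.center ↥H)) Nat.card_pos
    intro z hz
    have h1 : (⟨z, hz⟩ : ↥(Subgroup.center ↥H)) ^ Nat.card ↥(Subgroup.center ↥H) = 1 :=
      pow_card_eq_one'
    exact congrArg Subtype.val h1
  obtain ⟨p, hp, hpE⟩ := hH.exists_prime
  obtain ⟨S, hS⟩ := hH.fgm
  have hfin : (AddSubgroup.closure {a : E | ∃ g : ↥H, ∃ s ∈ S, a = g • s} : Set E).Finite := by
    apply finite_closure p hp.pos
    · have : {a : E | ∃ g : ↥H, ∃ s ∈ S, a = g • s} =
          ⋃ g : ↥H, (fun s : E => g • s) '' (S : Set E) := by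
        ext a
        simp only [Set.mem_setOf_eq, Set.mem_iUnion, Set.mem_image, Finset.mem_coe]
        constructor
        · rintro ⟨g, s, hs, rfl⟩
          exact ⟨g, s, hs, rfl⟩
        · rintro ⟨g, s, hs, rfl⟩
          exact ⟨g, s, hs, rfl⟩
      rw [this]
      exact Set.finite_iUnion fun g => (S.finite_toSet).image _
    · intro x _
      exact hpE x
  rw [hS] at hfin
  exact Set.finite_univ_iff.1 hfin

end Pool.Agent.R672.RFV
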